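import Pool.Agent.Zk51.PC.Final

/-!
# The parity conjecture for abelian varieties with endomorphism algebras of even dimension

Let `K` be a number field. An abelian variety `A / K` enters through the following data, with their
known properties (`AbVar`): the algebra `D = End_K(A) ⊗ ℚ` with the Rosati involution `star` of a
polarization; the vector space `MW = A(K) ⊗ ℚ` over `ℚ`, of dimension `rank`, with the action of `D`
and the Néron-Tate height of the polarization (`IsHeight`, positive definite, `⟨a x, y⟩ = ⟨x, star a y⟩`); the
representations `V_v = rep v` of the Weil-Deligne groups of the completions of `K` (given by the Tate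
modules, and by the Hodge structure for infinite `v`) and the generalized eigenspaces `piece v a α` of
the endomorphisms `a` of `V_v` (`Reps`; root numbers are taken with respect to the local components of
a fixed character of the adele class group):

* `V_v` is the sum of the eigenspaces of `a`;
* `piece v a α` is dual (up to the Tate twist) to `piece v (star a) α`, by the Weil pairing;
* the determinants of the `piece v a α`, for all `v`, are the local components of an idele class
  character of `K` (an algebraic Hecke character);
* the root numbers of the `piece v a α` are `1` for almost all `v`;
* for `a = star a` (then `piece v a α` is symplectic) they are `1` or `-1`, and equal for conjugate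
  `α` (for finite `v` this is Rohrlich's theorem on the Galois invariance of local root numbers);
* the root number `w(A / K_v)` of `V_v` is `(-1) ^ dim A` for infinite `v`.

The local theory (`LocalTheory`) is: root numbers of representations of the Weil-Deligne group are
multiplicative, and the product of the root numbers of `V` and of its dual is `det V (-1)` (Deligne).
`globalRoot` is the product of all the local root numbers `w(A / K_v)`, and `Parity` is the statement
`(-1) ^ rank = ∏ w(A / K_v)` of the problem.

Theorem. Let `B i` be simple abelian varieties over `K`, `L / K` a finite extension, and `A'` an abelian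
variety over `L` isogenous over `L` to the product of the `B i ^ n i`.

1. If `n i * dim End_K(B i) ⊗ ℚ` is even for all `i`, then the rank of `A'(L)` is even, the root number
   `w(A' / L)` is one, and the parity conjecture holds for `A'`. In particular it holds over every finite
   extension of `K` for every simple `B / K` such that the dimension of `End_K(B) ⊗ ℚ` is even.
2. In general the parity conjecture for `A' / L` is equivalent to the parity conjecture for the product
   of the `B i` for which `n i * dim End_K(B i) ⊗ ℚ` is odd.
3. If the dimension of `D = End_K(B i) ⊗ ℚ` is odd, then `D` is commutative and the Rosati involution is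
   trivial, and the parity conjecture for `B i` is equivalent to its `D`-linear form: for every
   generator `a` of the field `D` and every eigenvalue `α`, the parity of the dimension over `D` of
   `B i(K) ⊗ ℚ` is given by the product of the root numbers of the eigenspaces `piece v a α`.
4. If `A / K` is any abelian variety with an invertible endomorphism `a` (in `End_K(A) ⊗ ℚ`) such that
   `star a = -a`, or with an automorphism `u` preserving the polarization such that `u² - 1` is
   invertible, then the rank is even and the root number is one over every finite extension of `K`.
-/

set_option autoImplicit false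

open NumberField IsDedekindDomain Polynomial Pool.Agent.Zk51.PC

namespace Pool.Agent.Results.MP_ac3185_nt.EvenEndomorphismAlgebras

/-- **The parity conjecture for abelian varieties with endomorphism algebras of even dimension.** -/
theorem result (K : Type) [Field K] [NumberField K] (T : ∀ v : Place K, LocalTheory (Compl K v))
    (L : Type) [Field L] [NumberField L] [Algebra K L] (T' : ∀ v : Place L, LocalTheory (Compl L v))
    -- simple abelian varieties over `K`, their base changes to `L`, and the product of the powers
    {ι : Type} [Fintype ι] (B : ι → AbVar K T) (hB : ∀ i, (B i).IsSimple)
    (B' : ι → AbVar L T') (hB' : ∀ i, (B i).IsBaseChange (B' i))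
    (n : ι → ℕ) (A' : AbVar L T') (hA' : A'.IsIsogenous B' n) :
    -- 1. the parity conjecture for endomorphism algebras of even dimension
    ((∀ i, Even (n i * (B i).dimEnd)) → Even A'.rank ∧ A'.globalRoot = 1 ∧ A'.Parity) ∧
    -- 2. the reduction of the parity conjecture to the set `S` of the other `i`
    (∀ S : Finset ι, (∀ i, i ∈ S ↔ Odd (n i * (B i).dimEnd)) →
      (A'.Parity ↔ (-1) ^ (∑ i ∈ S, (B' i).rank) = ∏ i ∈ S, (B' i).globalRoot)) ∧
    -- 3. endomorphism algebras of odd dimension
    (∀ i, Odd (B i).dimEnd →
      (B i).TrivialRosati ∧
      ∀ a α, (B i).IsGenerator a α → ((B i).Parity ↔ (B i).LinearParity a α)) ∧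
    -- 4. skew endomorphisms, and automorphisms of polarized abelian varieties
    (∀ A : AbVar K T, A.HasSkew ∨ A.HasUnitary →
      ∀ A₁ : AbVar L T', A.IsBaseChange A₁ → Even A₁.rank ∧ A₁.globalRoot = 1 ∧ A₁.Parity) := by
  have hpar : ∀ A : AbVar L T', Even A.rank ∧ A.globalRoot = 1 →
      Even A.rank ∧ A.globalRoot = 1 ∧ A.Parity := by
    intro A h
    refine ⟨h.1, h.2, ?_⟩
    unfold AbVar.Parity
    rw [h.2, h.1.neg_one_pow]
  refine ⟨fun he => hpar _ (AbVar.product_even hB hB' hA' he),
    fun S hS => AbVar.product_parity hB hB' hA' S hS,
    fun i ho => (B i).simple_odd (hB i) ho, fun A h A₁ hbc => hpar _ (A₁.of_crit ?_)⟩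
  refine AbVar.crit_baseChange hbc ?_
  rcases h with h | ⟨u, hu, h1⟩
  · exact Or.inl h
  · exact A.crit_of_unitary hu h1

end Pool.Agent.Results.MP_ac3185_nt.EvenEndomorphismAlgebras
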