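import Pool.Agent.Zk66.PG.B

/-!
# The parity conjecture for abelian varieties with an action of a finite group, and for Galois covers of curves

An abelian variety `A` over a number field `K` enters as in `Pool.Agent.Results.MP_ac3185_nt.EvenEndomorphismAlgebras`
(helper51, `Pool/Agent/Zk51/PC/Basic.lean`): `AbVar` consists of the algebra `D = End_K(A) ⊗ ℚ` with the Rosati involution of a
polarization, the space `A(K) ⊗ ℚ` with the action of `D` and the Néron-Tate height, and the representations of the Weil-Deligne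
groups of the completions with the generalized eigenspaces `piece v a α` of the endomorphisms, with their known properties. One more
known property is needed: the generalized eigenspaces of a polynomial `p(a)` are the sums of those of `a` (`PolyPieces`).

Let a finite group `G` act on `A` over `K` by automorphisms which preserve the polarization (for example `A` is the Jacobian of a
curve `X` over `K` and `G` acts on `X` over `K`). For a subgroup `H` let `A^H` be the connected component of the subgroup of the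
fixed points (it is isogenous to the Jacobian of `X / H`). Its rank is the dimension of the subspace of the vectors of `A(K) ⊗ ℚ`
fixed by `H` (`rankFix`), its Tate module is cut out by the idempotent `(1 / |H|) ∑_{h ∈ H} h` (`average`), and its root number is the
product of the root numbers of the eigenspaces of this idempotent for the eigenvalue `1` (`rootFix`).

1. For every skew endomorphism `a` (`star a = -a`) the rank of `A` and of the kernel of `a` have the same parity, and the root numbers
   are equal.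
2. For every subgroup `H` and every `g` in `G` which normalizes `H`, the ranks of `A^H` and of `A^⟨H, g²⟩` have the same parity and
   the root numbers are equal, so that the parity conjecture for `A^H` is equivalent to the one for `A^⟨H, g²⟩`. Here `g` may have any
   order.
3. Let `H ≤ N` be normal subgroups of `G` such that `N / H` is solvable of odd order (all groups of odd order are solvable, by Feit
   and Thompson) and `G / N` is a `2`-group; for instance `G / H` may be any nilpotent group, any group of odd order, or a dihedral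
   group of order `2 n`, `n` odd. Let `S` be the subgroup generated by `N` and the squares of all elements of `G`; `G / S` is
   elementary abelian. Then the ranks of `A^H` and `A^S` have the same parity, the root numbers are equal, and the parity conjecture
   for `A^H` is equivalent to the one for `A^S`. It is true if `A^S = 0`, and it follows from the parity conjecture for the `A^M` for
   the subgroups `M` of `G` of index at most two.

So for every Galois cover `X → Y` of curves, defined over `K` with its group `G`, the parity conjecture for the Jacobian of `X`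
follows from the one for the Jacobians of `Y` and of the intermediate double covers of `Y`, if `G` has a normal (solvable) subgroup of
odd order such that the quotient is a `2`-group. For `Y = ℙ¹` these are hyperelliptic curves: the parity conjecture for the Jacobians
of the hyperelliptic curves over `K` implies the one for all nilpotent covers of `ℙ¹`; and it is true for all Jacobians of covers of
`ℙ¹` with solvable groups of odd order. All this applies over every finite extension of `K`, too.

Proof. (2) The skew endomorphism `(1 / |H|) ∑_{h ∈ H} h (g - g⁻¹)` is invertible on the complement of `A^⟨H, g²⟩` in `A^H`. For a skew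
endomorphism the eigenspaces for `α` and `-α` are dual, by the Weil pairing, and the product of the root numbers of a representation
and its dual is the value of the determinant at `-1` (Deligne), the local component of a Hecke character; on the other hand a skew
operator has even rank. (3) For the odd part use (2) along the derived series. Let now `G / N` be a `2`-group, acting on a part of `A`
in which no character of order at most two occurs. Take a central involution `z` modulo `N` and split by `z = ±1`. Where `z = -1` take a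
central involution `x` modulo `⟨N, z⟩`. If `x² = z` then `x` is skew with `x² = -1`; if `g x g⁻¹ = x z` for some `g` then
`a = g p - p g⁻¹`, `p = (1 + x) / 2`, is skew with `a² = -1`; otherwise `x` is central of order two, and we can split once more, and
use induction. For the last statement the relations of Kani and Rosen for the quotients `(ℤ / 2)²`, for ranks and root numbers.
-/

set_option autoImplicit false

open NumberField IsDedekindDomain Polynomial Pool.Agent.Zk51.PC Pool.Agent.Zk66.PG
open scoped commutatorElement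

namespace Pool.Agent.Results.MP_ac3185_nt.FiniteGroupActions

variable {K : Type} [Field K] [NumberField K] {T : ∀ v : Place K, LocalTheory (Compl K v)}

section Defs

/-- An action of the group `G` on `A` by automorphisms (elements of `D`) which preserve the polarization, i.e. the adjoint
`star (act g)` is `act g⁻¹`. -/
structure GroupAction (A : AbVar K T) (G : Type) [Group G] where
  /-- The endomorphism given by an element of `G`. -/
  act : G → A.D
  act_one : act 1 = 1
  act_mul : ∀ g h, act (g * h) = act g * act h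
  act_star : ∀ g, star (act g) = act g⁻¹

variable {G : Type} [Group G] [Fintype G] (A : AbVar K T) (ρ : GroupAction A G) (H : Subgroup G)

open Classical in
/-- The idempotent `(1 / |H|) ∑_{h ∈ H} h`. -/
noncomputable def average : A.D := (Nat.card H : ℚ)⁻¹ • ∑ g, if g ∈ H then ρ.act g else 0

/-- The vectors of `A(K) ⊗ ℚ` fixed by `H` (they are a subspace). -/
def fixedVectors : Submodule ℚ A.MW := Submodule.span ℚ {x | ∀ h ∈ H, ρ.act h • x = x}

/-- The rank of `A^H`. -/
noncomputable def rankFix : ℕ := Module.finrank ℚ (fixedVectors A ρ H)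

/-- The global root number of `A^H`. -/
noncomputable def rootFix : ℂˣ := ∏ᶠ v : Place K, (T v).root (A.reps.piece v (average A ρ H) 1)

/-- The parity conjecture for `A^H`. -/
def ParityFix : Prop := (-1) ^ rankFix A ρ H = rootFix A ρ H

/-- The ranks of `A^H` and `A^M` have the same parity, the root numbers are equal, and the parity conjectures for `A^H` and `A^M`
are equivalent. -/
def Same (M : Subgroup G) : Prop :=
  (Even (rankFix A ρ H) ↔ Even (rankFix A ρ M)) ∧ rootFix A ρ H = rootFix A ρ M ∧ (ParityFix A ρ H ↔ ParityFix A ρ M)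

/-- The normal subgroup generated by the squares. -/
def squares (G : Type) [Group G] : Subgroup G := Subgroup.normalClosure (Set.range fun g : G => g ^ 2)

end Defs

section Lemmas

variable {G : Type} [Group G] [Fintype G] (A : AbVar K T) (ρ : GroupAction A G)

omit [Fintype G] in
lemma R_mul (g h : G) : ρ.act (g * h) = ρ.act g * ρ.act h := ρ.act_mul g h

omit [Fintype G] in
lemma R_one : ρ.act 1 = 1 := ρ.act_one

omit [Fintype G] in
lemma R_inv (g : G) : star (ρ.act g) = ρ.act g⁻¹ := ρ.act_star g

open Classical in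
/-- The average as a sum over the elements of `H`. -/
lemma average_def (H : Subgroup G) : average A ρ H =
    ((Finset.univ.filter fun g => g ∈ H).card : ℚ)⁻¹ • ∑ g ∈ Finset.univ.filter (fun g => g ∈ H), ρ.act g := by
  unfold average
  rw [Finset.sum_filter, Nat.card_eq_fintype_card, Fintype.card_subtype]

lemma card_pos (H : Subgroup G) [DecidablePred fun g => g ∈ H] :
    ((Finset.univ.filter fun g => g ∈ H).card : ℚ) ≠ 0 := by
  have h : (Finset.univ.filter fun g => g ∈ H).Nonempty := ⟨1, by simp [H.one_mem]⟩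
  exact_mod_cast (Finset.card_pos.2 h).ne'

lemma mul_average {H : Subgroup G} {h : G} (hh : h ∈ H) : (ρ.act h) * average A ρ H = average A ρ H := by
  classical
  simp only [average_def]
  rw [mul_smul_comm, Finset.mul_sum]
  congr 1
  refine Finset.sum_nbij' (fun g => h * g) (fun g => h⁻¹ * g) ?_ ?_ ?_ ?_ ?_
  · intro g hg
    rw [Finset.mem_filter] at hg ⊢
    exact ⟨Finset.mem_univ _, H.mul_mem hh hg.2⟩
  · intro g hg
    rw [Finset.mem_filter] at hg ⊢
    exact ⟨Finset.mem_univ _, H.mul_mem (H.inv_mem hh) hg.2⟩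
  · intro g _
    exact inv_mul_cancel_left h g
  · intro g _
    exact mul_inv_cancel_left h g
  · intro g _
    exact (R_mul A ρ h g).symm

lemma average_mul {H : Subgroup G} {h : G} (hh : h ∈ H) : average A ρ H * (ρ.act h) = average A ρ H := by
  classical
  simp only [average_def]
  rw [smul_mul_assoc, Finset.sum_mul]
  congr 1
  refine Finset.sum_nbij' (fun g => g * h) (fun g => g * h⁻¹) ?_ ?_ ?_ ?_ ?_
  · intro g hg
    rw [Finset.mem_filter] at hg ⊢
    exact ⟨Finset.mem_univ _, H.mul_mem hg.2 hh⟩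
  · intro g hg
    rw [Finset.mem_filter] at hg ⊢
    exact ⟨Finset.mem_univ _, H.mul_mem hg.2 (H.inv_mem hh)⟩
  · intro g _
    exact mul_inv_cancel_right g h
  · intro g _
    exact inv_mul_cancel_right g h
  · intro g _
    exact (R_mul A ρ g h).symm

lemma star_average (H : Subgroup G) : star (average A ρ H) = average A ρ H := by
  classical
  simp only [average_def]
  rw [star_smul_rat, star_sum]
  congr 1
  refine Finset.sum_nbij' (fun g => g⁻¹) (fun g => g⁻¹) ?_ ?_ ?_ ?_ ?_
  · intro g hg
    rw [Finset.mem_filter] at hg ⊢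
    exact ⟨Finset.mem_univ _, H.inv_mem hg.2⟩
  · intro g hg
    rw [Finset.mem_filter] at hg ⊢
    exact ⟨Finset.mem_univ _, H.inv_mem hg.2⟩
  · intro g _
    exact inv_inv g
  · intro g _
    exact inv_inv g
  · intro g _
    exact R_inv A ρ g

/-- An element which absorbs `H` absorbs the average. -/
lemma absorb_left {H : Subgroup G} {x : A.D} (hx : ∀ h ∈ H, x * (ρ.act h) = x) : x * average A ρ H = x := by
  classical
  simp only [average_def]
  rw [mul_smul_comm, Finset.mul_sum, Finset.sum_congr rfl fun g hg => hx g (Finset.mem_filter.1 hg).2,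
    Finset.sum_const, ← Nat.cast_smul_eq_nsmul ℚ, smul_smul, inv_mul_cancel₀ (card_pos H), one_smul]

lemma absorb_right {H : Subgroup G} {x : A.D} (hx : ∀ h ∈ H, (ρ.act h) * x = x) : average A ρ H * x = x := by
  classical
  simp only [average_def]
  rw [smul_mul_assoc, Finset.sum_mul, Finset.sum_congr rfl fun g hg => hx g (Finset.mem_filter.1 hg).2,
    Finset.sum_const, ← Nat.cast_smul_eq_nsmul ℚ, smul_smul, inv_mul_cancel₀ (card_pos H), one_smul]

lemma average_idem (H : Subgroup G) : average A ρ H * average A ρ H = average A ρ H :=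
  absorb_left A ρ fun _ hh => average_mul A ρ hh

lemma comm_average {H : Subgroup G} {g : G} (hg : g ∈ Subgroup.normalizer (H : Set G)) :
    (ρ.act g) * average A ρ H = average A ρ H * (ρ.act g) := by
  classical
  simp only [average_def]
  rw [smul_mul_assoc, mul_smul_comm, Finset.mul_sum, Finset.sum_mul]
  congr 1
  rw [Subgroup.mem_normalizer_iff] at hg
  refine Finset.sum_nbij' (fun h => g * h * g⁻¹) (fun h => g⁻¹ * h * g) ?_ ?_ ?_ ?_ ?_
  · intro h hh
    rw [Finset.mem_filter] at hh ⊢
    exact ⟨Finset.mem_univ _, (hg h).1 hh.2⟩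
  · intro h hh
    rw [Finset.mem_filter] at hh ⊢
    refine ⟨Finset.mem_univ _, (hg _).2 ?_⟩
    have h1 : g * (g⁻¹ * h * g) * g⁻¹ = h := by group
    rw [h1]
    exact hh.2
  · intro h _
    show g⁻¹ * (g * h * g⁻¹) * g = h
    group
  · intro h _
    show g * (g⁻¹ * h * g) * g⁻¹ = h
    group
  · intro h _
    rw [← R_mul, ← R_mul, inv_mul_cancel_right]

/-- The average of the powers of `y = g²`. -/
noncomputable def powAvg (g : G) : A.D :=
  (Fintype.card G : ℚ)⁻¹ • ∑ j ∈ Finset.range (Fintype.card G), (ρ.act (g ^ 2)) ^ j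

lemma cardG_ne : (Fintype.card G : ℚ) ≠ 0 := by
  exact_mod_cast Fintype.card_ne_zero

lemma pow_card_R (g : G) : (ρ.act g) ^ Fintype.card G = 1 := by
  have h1 : ∀ n : ℕ, (ρ.act g) ^ n = (ρ.act (g ^ n)) := by
    intro n
    induction n with
    | zero => rw [pow_zero, pow_zero, R_one]
    | succ n ih => rw [pow_succ, pow_succ, ih, R_mul]
  rw [h1, pow_card_eq_one, R_one]

lemma mul_powAvg (g : G) : (ρ.act (g ^ 2)) * powAvg A ρ g = powAvg A ρ g := by
  unfold powAvg
  rw [mul_smul_comm]
  congr 1
  have h1 := mul_geom_sum (ρ.act (g ^ 2)) (Fintype.card G)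
  rw [pow_card_R, sub_self, sub_mul, one_mul, sub_eq_zero] at h1
  exact h1

lemma powAvg_mul (g : G) : powAvg A ρ g * (ρ.act (g ^ 2)) = powAvg A ρ g := by
  unfold powAvg
  rw [smul_mul_assoc]
  congr 1
  have h1 := geom_sum_mul (ρ.act (g ^ 2)) (Fintype.card G)
  rw [pow_card_R, sub_self, mul_sub, mul_one, sub_eq_zero] at h1
  exact h1

/-- An element which absorbs `g²` absorbs `powAvg`. -/
lemma absorb_powAvg {g : G} {x : A.D} (hx : x * (ρ.act (g ^ 2)) = x) : x * powAvg A ρ g = x := by
  have h1 : ∀ j : ℕ, x * (ρ.act (g ^ 2)) ^ j = x := by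
    intro j
    induction j with
    | zero => rw [pow_zero, mul_one]
    | succ j ih => rw [pow_succ, ← mul_assoc, ih, hx]
  unfold powAvg
  rw [mul_smul_comm, Finset.mul_sum, Finset.sum_congr rfl fun j _ => h1 j, Finset.sum_const,
    Finset.card_range, ← Nat.cast_smul_eq_nsmul ℚ, smul_smul, inv_mul_cancel₀ cardG_ne, one_smul]

/-- The average over the subgroup generated by `H` and `g²`. -/
lemma average_sup {H : Subgroup G} {g : G} (hg : g ∈ Subgroup.normalizer (H : Set G)) :
    average A ρ (H ⊔ Subgroup.zpowers (g ^ 2)) = average A ρ H * powAvg A ρ g := by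
  set M := H ⊔ Subgroup.zpowers (g ^ 2) with hM
  set F := average A ρ H * powAvg A ρ g with hF
  have hHM : H ≤ M := le_sup_left
  have hgM : g ^ 2 ∈ M := (le_sup_right : Subgroup.zpowers (g ^ 2) ≤ M) (Subgroup.mem_zpowers _)
  have hg2 : g ^ 2 ∈ Subgroup.normalizer (H : Set G) := Subgroup.pow_mem _ hg 2
  have h1 : average A ρ M * F = average A ρ M := by
    rw [hF, ← mul_assoc, absorb_left A ρ fun h hh => average_mul A ρ (hHM hh),
      absorb_powAvg A ρ (average_mul A ρ hgM)]
  let St : Subgroup G :=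
    { carrier := {m | (ρ.act m) * F = F}
      mul_mem' := fun {a b} ha hb => by
        show (ρ.act (a * b)) * F = F
        rw [R_mul, mul_assoc, show (ρ.act b) * F = F from hb, show (ρ.act a) * F = F from ha]
      one_mem' := by
        show (ρ.act 1) * F = F
        rw [R_one, one_mul]
      inv_mem' := fun {a} ha => by
        show (ρ.act a⁻¹) * F = F
        have h2 : (ρ.act a) * F = F := ha
        calc (ρ.act a⁻¹) * F = (ρ.act a⁻¹) * ((ρ.act a) * F) := by rw [h2]
          _ = F := by rw [← mul_assoc, ← R_mul, inv_mul_cancel, R_one, one_mul] }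
  have hSt : M ≤ St := by
    refine sup_le (fun h hh => ?_) ?_
    · show (ρ.act h) * F = F
      rw [hF, ← mul_assoc, mul_average A ρ hh]
    · rw [Subgroup.zpowers_le]
      show (ρ.act (g ^ 2)) * F = F
      rw [hF, ← mul_assoc, comm_average A ρ hg2, mul_assoc, mul_powAvg]
  rw [← h1]
  exact absorb_right A ρ fun m hm => hSt hm

lemma sum_identity {D : Type} [Ring D] (y : D) (n : ℕ) :
    (y - 1) * ∑ j ∈ Finset.range n, (j : D) * y ^ j = (n : D) * y ^ n - ∑ j ∈ Finset.range n, y ^ (j + 1) := by
  induction n with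
  | zero => simp
  | succ n ih =>
    rw [Finset.sum_range_succ, Finset.sum_range_succ, mul_add, ih, sub_mul, one_mul, ← mul_assoc,
      ← (Nat.cast_commute n y).eq, mul_assoc, ← pow_succ']
    push_cast
    rw [add_mul, one_mul]
    abel

/-- The inverse of `g² - 1` on the complement. -/
lemma exists_c (g : G) : ∃ c : A.D, ((ρ.act (g ^ 2)) - 1) * c = 1 - powAvg A ρ g ∧
    ∀ x : A.D, x * (ρ.act g) = (ρ.act g) * x → x * c = c * x := by
  set N := Fintype.card G with hN
  set y : A.D := (ρ.act (g ^ 2)) with hy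
  refine ⟨(N : ℚ)⁻¹ • ∑ j ∈ Finset.range N, (j : A.D) * y ^ j, ?_, fun x hx => ?_⟩
  · rw [mul_smul_comm, sum_identity, pow_card_R, mul_one, smul_sub, powAvg, ← hN, ← hy]
    have h1 : (N : ℚ)⁻¹ • (N : A.D) = 1 := by
      have h4 : ((N : ℕ) : A.D) = (N : ℚ) • (1 : A.D) := by rw [Nat.cast_smul_eq_nsmul, nsmul_one]
      rw [h4, smul_smul, inv_mul_cancel₀ cardG_ne, one_smul]
    have h2 : ∑ j ∈ Finset.range N, y ^ (j + 1) = ∑ j ∈ Finset.range N, y ^ j := by
      have h3 := mul_geom_sum y N
      rw [hN, pow_card_R, sub_self, sub_mul, one_mul, sub_eq_zero, Finset.mul_sum] at h3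
      rw [hN, ← h3]
      exact Finset.sum_congr rfl fun j _ => pow_succ' y j
    rw [h1, h2]
  · have h1 : x * y = y * x := by
      rw [hy, pow_two, R_mul, ← mul_assoc, hx, mul_assoc, hx, mul_assoc]
    rw [mul_smul_comm, smul_mul_assoc, Finset.mul_sum, Finset.sum_mul]
    congr 1
    refine Finset.sum_congr rfl fun j _ => ?_
    have h2 : Commute x (y ^ j) := (show Commute x y from h1).pow_right j
    rw [← mul_assoc, (Nat.cast_commute j x).symm.eq, mul_assoc, h2.eq, mul_assoc]

/-- The skew endomorphism which belongs to `H` and `g`. -/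
lemma exists_skew_pair {H : Subgroup G} {g : G} (hg : g ∈ Subgroup.normalizer (H : Set G)) :
    ∃ a b : A.D, star a = -a ∧
      a * b = average A ρ H - average A ρ (H ⊔ Subgroup.zpowers (g ^ 2)) ∧
      b * a = average A ρ H - average A ρ (H ⊔ Subgroup.zpowers (g ^ 2)) ∧
      (average A ρ H - average A ρ (H ⊔ Subgroup.zpowers (g ^ 2))) * a = a := by
  obtain ⟨c, hc, hcomm⟩ := exists_c A ρ g
  set e := average A ρ H with he
  set x : A.D := (ρ.act g) with hx
  set x' : A.D := (ρ.act g⁻¹) with hx'
  set S := powAvg A ρ g with hS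
  have hxx' : x * x' = 1 := by rw [hx, hx', ← R_mul, mul_inv_cancel, R_one]
  have hx'x : x' * x = 1 := by rw [hx, hx', ← R_mul, inv_mul_cancel, R_one]
  have hxe : x * e = e * x := comm_average A ρ hg
  have hx'e : x' * e = e * x' := comm_average A ρ (Subgroup.inv_mem _ hg)
  have hy : (ρ.act (g ^ 2)) = x * x := by rw [pow_two, R_mul]
  have hce : c * e = e * c := (hcomm e hxe.symm).symm
  have hcx : x * c = c * x := hcomm x rfl
  have hcx' : x' * c = c * x' := by
    refine hcomm x' ?_
    rw [hxx', hx'x]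
  have hf : average A ρ (H ⊔ Subgroup.zpowers (g ^ 2)) = e * S := average_sup A ρ hg
  have hee : e * e = e := average_idem A ρ H
  rw [hy] at hc
  have hSx : S * x = S * x' := by
    calc S * x = S * (x * x * x') := by rw [mul_assoc x, hxx', mul_one]
      _ = S * (x * x) * x' := (mul_assoc _ _ _).symm
      _ = S * x' := by rw [← hy, powAvg_mul]
  have hSe : S * e = e * S := by
    have h1 : S = 1 - (x * x - 1) * c := by rw [hc, sub_sub_cancel]
    rw [h1, sub_mul, mul_sub, one_mul, mul_one, mul_assoc, hce, ← mul_assoc, ← mul_assoc, sub_mul, mul_sub, mul_assoc x,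
      hxe, ← mul_assoc, hxe, one_mul, mul_one, mul_assoc e]
  have key : (x - x') * (x * c) = 1 - S := by
    rw [← hc, sub_mul, sub_mul, ← mul_assoc, ← mul_assoc, hx'x, one_mul]
  have key' : (x * c) * (x - x') = 1 - S := by
    have h1 : c * (x - x') = (x - x') * c := by rw [mul_sub, sub_mul, hcx, hcx']
    have h2 : x * (x - x') = (x - x') * x := by rw [mul_sub, sub_mul, hxx', hx'x]
    rw [← key, mul_assoc, h1, ← mul_assoc, h2, mul_assoc]
  refine ⟨e * (x - x'), e * (x * c), ?_, ?_, ?_, ?_⟩
  · rw [star_mul, star_sub, star_average, hx, hx', R_inv, R_inv, inv_inv, ← hx, ← hx', sub_mul, hxe, hx'e, mul_sub]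
    abel
  · have h1 : (x - x') * e = e * (x - x') := by rw [sub_mul, mul_sub, hxe, hx'e]
    calc e * (x - x') * (e * (x * c)) = e * ((x - x') * e) * (x * c) := by simp only [mul_assoc]
      _ = e * e * ((x - x') * (x * c)) := by rw [h1]; simp only [mul_assoc]
      _ = e - average A ρ (H ⊔ Subgroup.zpowers (g ^ 2)) := by rw [key, hee, mul_sub, mul_one, hf]
  · have h1 : (x * c) * e = e * (x * c) := by rw [mul_assoc, hce, ← mul_assoc, hxe, mul_assoc]
    calc e * (x * c) * (e * (x - x')) = e * ((x * c) * e) * (x - x') := by simp only [mul_assoc]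
      _ = e * e * ((x * c) * (x - x')) := by rw [h1]; simp only [mul_assoc]
      _ = e - average A ρ (H ⊔ Subgroup.zpowers (g ^ 2)) := by rw [key', hee, mul_sub, mul_one, hf]
  · rw [hf]
    have h1 : S * (x - x') = 0 := by rw [mul_sub, hSx, sub_self]
    calc (e - e * S) * (e * (x - x')) = e * e * (x - x') - e * (S * e) * (x - x') := by
          rw [sub_mul]; simp only [mul_assoc]
      _ = e * e * (x - x') - e * e * (S * (x - x')) := by rw [hSe]; simp only [mul_assoc]
      _ = e * (x - x') := by rw [h1, mul_zero, sub_zero, hee]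

lemma fixedVectors_eq (H : Subgroup G) :
    fixedVectors A ρ H = LinearMap.range (Module.toModuleEnd ℚ A.MW (average A ρ H)) := by
  classical
  have h0 : {x : A.MW | ∀ h ∈ H, ρ.act h • x = x} =
      (LinearMap.range (Module.toModuleEnd ℚ A.MW (average A ρ H)) : Set A.MW) := by
    ext x
    constructor
    · intro hx
      refine ⟨x, ?_⟩
      show average A ρ H • x = x
      have h1 : ∀ h ∈ Finset.univ.filter (fun g => g ∈ H), (ρ.act h) • x = x := fun h hh =>
        hx h (Finset.mem_filter.1 hh).2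
      rw [average_def, smul_assoc, Finset.sum_smul, Finset.sum_congr rfl h1, Finset.sum_const,
        ← Nat.cast_smul_eq_nsmul ℚ, smul_smul, inv_mul_cancel₀ (card_pos H), one_smul]
    · rintro ⟨y, rfl⟩ h hh
      show (ρ.act h) • (average A ρ H • y) = average A ρ H • y
      rw [← mul_smul, mul_average A ρ hh]
  unfold fixedVectors
  rw [h0, Submodule.span_eq]

lemma sup_mul {H M : Subgroup G} (hHM : H ≤ M) :
    average A ρ H * average A ρ M = average A ρ M ∧ average A ρ M * average A ρ H = average A ρ M :=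
  ⟨absorb_right A ρ fun _ hh => mul_average A ρ (hHM hh),
    absorb_left A ρ fun _ hh => average_mul A ρ (hHM hh)⟩

/-- The ranks of `A^H` and `A^M` have the same parity and the root numbers are equal. -/
def Same0 (H M : Subgroup G) : Prop :=
  (Even (rankFix A ρ H) ↔ Even (rankFix A ρ M)) ∧ rootFix A ρ H = rootFix A ρ M

/-- **The step.** -/
theorem step (hP : PolyPieces A) {H : Subgroup G} {g : G} (hg : g ∈ Subgroup.normalizer (H : Set G)) :
    Same0 A ρ H (H ⊔ Subgroup.zpowers (g ^ 2)) := by
  obtain ⟨a, b, hs, hab, hba, hga⟩ := exists_skew_pair A ρ hg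
  set M := H ⊔ Subgroup.zpowers (g ^ 2) with hM
  obtain ⟨hef, hfe⟩ := sup_mul A ρ (show H ≤ M from le_sup_left)
  constructor
  · have h1 := finrank_range_idem (Module.toModuleEnd ℚ A.MW (average A ρ H))
      (Module.toModuleEnd ℚ A.MW (average A ρ M))
      (by rw [← map_mul, average_idem]) (by rw [← map_mul, average_idem])
      (by rw [← map_mul, hef]) (by rw [← map_mul, hfe])
    rw [← map_sub] at h1
    have h2 : LinearMap.range (Module.toModuleEnd ℚ A.MW (average A ρ H - average A ρ M)) =
        LinearMap.range (Module.toModuleEnd ℚ A.MW a) := by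
      apply le_antisymm
      · rintro _ ⟨y, rfl⟩
        refine ⟨b • y, ?_⟩
        show a • (b • y) = (average A ρ H - average A ρ M) • y
        rw [← mul_smul, hab]
      · rintro _ ⟨y, rfl⟩
        refine ⟨a • y, ?_⟩
        show (average A ρ H - average A ρ M) • (a • y) = a • y
        rw [← mul_smul, hga]
    have h3 : Even (Module.finrank ℚ (LinearMap.range (Module.toModuleEnd ℚ A.MW a))) := by
      refine even_finrank_range A.isHeight _ fun x y => ?_
      show A.height (a • x) y = -A.height x (a • y)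
      rw [A.height_star, hs, neg_smul, neg_right A.isHeight]
    rw [h2] at h1
    unfold rankFix
    rw [fixedVectors_eq, fixedVectors_eq, h1, Nat.even_add]
    exact ⟨fun h => h.2 h3, fun h => ⟨fun _ => h3, fun _ => h⟩⟩
  · have h1 := rootAt_idem A hP (average_idem A ρ H) (average_idem A ρ M) hef hfe
    rw [rootAt_skew A hP hs hab hba hga, mul_one] at h1
    exact h1

lemma Same0.refl (H : Subgroup G) : Same0 A ρ H H := ⟨Iff.rfl, rfl⟩

variable {A ρ}

lemma Same0.trans {H M N : Subgroup G} (h1 : Same0 A ρ H M) (h2 : Same0 A ρ M N) : Same0 A ρ H N :=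
  ⟨h1.1.trans h2.1, h1.2.trans h2.2⟩

lemma Same0.parity {H M : Subgroup G} (h : Same0 A ρ H M) : ParityFix A ρ H ↔ ParityFix A ρ M := by
  unfold ParityFix
  rw [h.2]
  have h1 : ((-1 : ℂˣ)) ^ rankFix A ρ H = (-1) ^ rankFix A ρ M := by
    rcases Nat.even_or_odd (rankFix A ρ H) with h2 | h2
    · rw [h2.neg_one_pow, (h.1.1 h2).neg_one_pow]
    · have h3 : Odd (rankFix A ρ M) := by
        rw [← Nat.not_even_iff_odd] at h2 ⊢
        exact fun h4 => h2 (h.1.2 h4)
      rw [h2.neg_one_pow, h3.neg_one_pow]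
  rw [h1]

/-- **The abelian step.** -/
theorem abelian_step (hP : PolyPieces A) {N M : Subgroup G} (hNM : N ≤ M) (hc : ⁅M, M⁆ ≤ N) (m : ℕ)
    (hm : Odd m) (hpow : ∀ g ∈ M, g ^ m ∈ N) : Same0 A ρ N M := by
  classical
  have key : ∀ S : Finset G, (∀ s ∈ S, s ∈ M) → Same0 A ρ N (N ⊔ Subgroup.closure (S : Set G)) := by
    intro S
    induction S using Finset.induction_on with
    | empty =>
      intro _
      rw [Finset.coe_empty, Subgroup.closure_empty, sup_bot_eq]
      exact Same0.refl A ρ N
    | insert g S hgS ih =>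
      intro hS
      have h1 := ih fun s hs => hS s (Finset.mem_insert_of_mem hs)
      have hgM : g ∈ M := hS g (Finset.mem_insert_self g S)
      set N' := N ⊔ Subgroup.closure (S : Set G) with hN'
      have hN'M : N' ≤ M := by
        refine sup_le hNM ?_
        rw [Subgroup.closure_le]
        exact fun s hs => hS s (Finset.mem_insert_of_mem (Finset.mem_coe.1 hs))
      have hNN' : N ≤ N' := le_sup_left
      have hconj : ∀ x ∈ M, ∀ h ∈ N', x * h * x⁻¹ ∈ N' := by
        intro x hx h hh
        have h2 : x * h * x⁻¹ = ⁅x, h⁆ * h := by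
          rw [commutatorElement_def, inv_mul_cancel_right]
        rw [h2]
        exact N'.mul_mem (hNN' (hc (Subgroup.commutator_mem_commutator hx (hN'M hh)))) hh
      have hgn : g ∈ Subgroup.normalizer (N' : Set G) := by
        rw [Subgroup.mem_normalizer_iff]
        refine fun h => ⟨fun hh => hconj g hgM h hh, fun hh => ?_⟩
        have h2 := hconj g⁻¹ (M.inv_mem hgM) _ hh
        have h3 : g⁻¹ * (g * h * g⁻¹) * g⁻¹⁻¹ = h := by group
        rwa [h3] at h2
      have h2 := step A ρ hP hgn
      have h3 : N' ⊔ Subgroup.zpowers (g ^ 2) = N ⊔ Subgroup.closure ((insert g S : Finset G) : Set G) := by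
        rw [Finset.coe_insert, Set.insert_eq, Subgroup.closure_union, ← Subgroup.zpowers_eq_closure]
        apply le_antisymm
        · refine sup_le (sup_le le_sup_left (le_sup_right.trans le_sup_right)) ?_
          rw [Subgroup.zpowers_le]
          exact Subgroup.pow_mem _ ((le_sup_left.trans le_sup_right :
            Subgroup.zpowers g ≤ N ⊔ (Subgroup.zpowers g ⊔ Subgroup.closure (S : Set G)))
              (Subgroup.mem_zpowers g)) 2
        · refine sup_le (hNN'.trans le_sup_left) (sup_le ?_ (le_sup_right.trans le_sup_left))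
          rw [Subgroup.zpowers_le]
          obtain ⟨k, hk⟩ := hm
          have h4 : g = (g ^ 2) ^ (k + 1) * (g ^ m)⁻¹ := by
            rw [hk, ← pow_mul]
            rw [eq_mul_inv_iff_mul_eq, ← pow_succ']
            congr 1
          have h5 : (g ^ 2) ^ (k + 1) * (g ^ m)⁻¹ ∈ N' ⊔ Subgroup.zpowers (g ^ 2) :=
            Subgroup.mul_mem _ (Subgroup.pow_mem _ ((le_sup_right :
              Subgroup.zpowers (g ^ 2) ≤ N' ⊔ Subgroup.zpowers (g ^ 2)) (Subgroup.mem_zpowers _)) _)
                (Subgroup.inv_mem _ ((hNN'.trans le_sup_left) (hpow g hgM)))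
          rwa [← h4] at h5
      rw [← h3]
      exact h1.trans h2
  have h1 := key (Finset.univ.filter fun g => g ∈ M) fun s hs => (Finset.mem_filter.1 hs).2
  have h2 : N ⊔ Subgroup.closure ((Finset.univ.filter fun g => g ∈ M : Finset G) : Set G) = M := by
    rw [Finset.coe_filter]
    have h3 : {x : G | x ∈ Finset.univ ∧ x ∈ M} = (M : Set G) := by
      ext x
      simp
    rw [h3, Subgroup.closure_eq, sup_eq_right]
    exact hNM
  rwa [h2] at h1

/-- **Solvable quotients of odd order.** -/
theorem solvable_step (hP : PolyPieces A) (H : Subgroup G) [H.Normal] (hs : Group.IsSolvable (G ⧸ H))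
    (ho : Odd (Nat.card (G ⧸ H))) : Same0 A ρ H ⊤ := by
  classical
  let π := QuotientGroup.mk' H
  have hπ : ∀ x, π x = 1 ↔ x ∈ H := fun x => by
    show (x : G ⧸ H) = 1 ↔ x ∈ H
    exact QuotientGroup.eq_one_iff x
  have key : ∀ k, Same0 A ρ ((derivedSeries (G ⧸ H) k).comap π) ⊤ := by
    intro k
    induction k with
    | zero =>
      rw [derivedSeries_zero, Subgroup.comap_top]
      exact Same0.refl A ρ ⊤
    | succ k ih =>
      refine Same0.trans (abelian_step hP (Subgroup.comap_mono (derivedSeries_antitone _ (Nat.le_succ k))) ?_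
        (Nat.card (G ⧸ H)) ho ?_) ih
      · rw [derivedSeries_succ, ← Subgroup.map_le_iff_le_comap, Subgroup.map_commutator]
        exact Subgroup.commutator_mono (Subgroup.map_comap_le _ _) (Subgroup.map_comap_le _ _)
      · intro g _
        rw [Subgroup.mem_comap, map_pow, pow_card_eq_one']
        exact Subgroup.one_mem _
  obtain ⟨n, hn⟩ := hs.solvable
  have h1 := key n
  rw [hn] at h1
  have h2 : (⊥ : Subgroup (G ⧸ H)).comap π = H := by
    ext x
    rw [Subgroup.mem_comap, Subgroup.mem_bot]
    exact hπ x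
  rwa [h2] at h1

variable (A ρ)

lemma average_bot : average A ρ (⊥ : Subgroup G) = 1 := by
  classical
  simp only [average_def]
  have h1 : (Finset.univ.filter fun g : G => g ∈ (⊥ : Subgroup G)) = {1} := by
    ext x
    simp [Subgroup.mem_bot]
  rw [h1, Finset.card_singleton, Finset.sum_singleton, R_one, Nat.cast_one, inv_one, one_smul]

omit [Fintype G] in
lemma rankFix_bot : rankFix A ρ (⊥ : Subgroup G) = A.rank := by
  unfold rankFix AbVar.rank
  have h1 : fixedVectors A ρ (⊥ : Subgroup G) = ⊤ := by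
    rw [eq_top_iff]
    intro x _
    refine Submodule.subset_span fun h hh => ?_
    rw [Subgroup.mem_bot.1 hh, R_one, one_smul]
  rw [h1, finrank_top]

lemma rootFix_bot : rootFix A ρ (⊥ : Subgroup G) = A.globalRoot := by
  unfold rootFix AbVar.globalRoot AbVar.localRoot
  refine finprod_congr fun v => ?_
  rw [average_bot, A.reps.sum v 1]
  have h1 : eigenvalues (1 : A.D) = {1} := by
    ext α
    rw [mem_eigenvalues, Finset.mem_singleton, minpoly.one, map_sub, aeval_X, map_one, sub_eq_zero]
  rw [h1, Finset.sum_singleton]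

end Lemmas

section TwoGroups

/-- `e` cuts out a part of even rank with the root number one. -/
def Nil (A : AbVar K T) (e : A.D) : Prop :=
  Even (Module.finrank ℚ (LinearMap.range (Module.toModuleEnd ℚ A.MW e))) ∧ rootAt A e 1 = 1

lemma nil_zero {A : AbVar K T} (hP : PolyPieces A) : Nil A 0 := by
  constructor
  · rw [map_zero, LinearMap.range_zero, finrank_bot]
    exact Even.zero
  · have h1 := rootAt_idem A hP (e := 0) (f := 0) (mul_zero _) (mul_zero _) (mul_zero _) (mul_zero _)
    rw [sub_zero] at h1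
    exact (left_eq_mul.1 h1)

lemma nil_split {A : AbVar K T} (hP : PolyPieces A) {e f : A.D} (he : e * e = e) (hf : f * f = f)
    (hef : e * f = f) (hfe : f * e = f) (h1 : Nil A f) (h2 : Nil A (e - f)) : Nil A e := by
  constructor
  · have h3 := finrank_range_idem (Module.toModuleEnd ℚ A.MW e) (Module.toModuleEnd ℚ A.MW f)
      (by rw [← map_mul, he]) (by rw [← map_mul, hf]) (by rw [← map_mul, hef]) (by rw [← map_mul, hfe])
    rw [← map_sub] at h3
    rw [h3]
    exact h1.1.add h2.1
  · rw [rootAt_idem A hP he hf hef hfe, h1.2, h2.2, mul_one]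

lemma nil_skew {A : AbVar K T} (hP : PolyPieces A) {a e : A.D} (hs : star a = -a) (haa : a * a = -e)
    (hea : e * a = a) : Nil A e := by
  have hab : a * -a = e := by rw [mul_neg, haa, neg_neg]
  have hba : -a * a = e := by rw [neg_mul, haa, neg_neg]
  constructor
  · have h2 : LinearMap.range (Module.toModuleEnd ℚ A.MW e) =
        LinearMap.range (Module.toModuleEnd ℚ A.MW a) := by
      apply le_antisymm
      · rintro _ ⟨y, rfl⟩
        refine ⟨(-a) • y, ?_⟩
        show a • ((-a) • y) = e • y
        rw [← mul_smul, hab]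
      · rintro _ ⟨y, rfl⟩
        refine ⟨a • y, ?_⟩
        show e • (a • y) = a • y
        rw [← mul_smul, hea]
    rw [h2]
    refine even_finrank_range A.isHeight _ fun x y => ?_
    show A.height (a • x) y = -A.height x (a • y)
    rw [A.height_star, hs, neg_smul, neg_right A.isHeight]
  · exact rootAt_skew A hP hs hab hba hea

variable {G : Type} [Group G] [Fintype G]

/-- A unitary representation of `G` in the corner `e D e`, `e = τ 1`, trivial on `N`. -/
structure Rp (A : AbVar K T) (N : Subgroup G) (τ : G → A.D) : Prop where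
  mul : ∀ g h, τ (g * h) = τ g * τ h
  adj : ∀ g, star (τ g) = τ g⁻¹
  triv : ∀ h ∈ N, τ h = τ 1

lemma Rp.one_mul' {A : AbVar K T} {N : Subgroup G} {τ : G → A.D} (h : Rp A N τ) (g : G) : τ 1 * τ g = τ g := by
  rw [← h.mul, one_mul]

lemma Rp.mul_one' {A : AbVar K T} {N : Subgroup G} {τ : G → A.D} (h : Rp A N τ) (g : G) : τ g * τ 1 = τ g := by
  rw [← h.mul, mul_one]

lemma Rp.congr {A : AbVar K T} {N : Subgroup G} {τ : G → A.D} (h : Rp A N τ) {g g' : G} (hg : g * g'⁻¹ ∈ N) :
    τ g = τ g' := by
  have h1 : g = (g * g'⁻¹) * g' := by group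
  rw [h1, h.mul, h.triv _ hg, h.one_mul']

lemma Rp.sup {A : AbVar K T} {N : Subgroup G} {τ : G → A.D} (h : Rp A N τ) {z : G} (hz : τ z = τ 1) :
    Rp A (N ⊔ Subgroup.zpowers z) τ := by
  refine ⟨h.mul, h.adj, ?_⟩
  let St : Subgroup G :=
    { carrier := {m | τ m = τ 1}
      mul_mem' := fun {a b} ha hb => by
        show τ (a * b) = τ 1
        rw [h.mul, show τ a = τ 1 from ha, show τ b = τ 1 from hb, ← h.mul, mul_one]
      one_mem' := rfl
      inv_mem' := fun {a} ha => by
        show τ a⁻¹ = τ 1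
        have h2 : τ a = τ 1 := ha
        rw [← h.mul_one' a⁻¹, ← h2, ← h.mul, inv_mul_cancel, h2] }
  have hSt : N ⊔ Subgroup.zpowers z ≤ St := by
    refine sup_le (fun x hx => h.triv x hx) ?_
    rw [Subgroup.zpowers_le]
    exact hz
  exact fun x hx => hSt hx

/-- Splitting by an element which is a central involution modulo `N`. -/
lemma Rp.half {A : AbVar K T} {N : Subgroup G} {τ : G → A.D} (h : Rp A N τ) {z : G} (hz : z * z ∈ N)
    (hc : ∀ g, g * z * g⁻¹ * z⁻¹ ∈ N) {s : ℚ} (hs : s * s = 1) :
    Rp A N (fun g => (1 / 2 : ℚ) • (τ g + s • τ (z * g))) := by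
  have hcz : ∀ g, τ g * τ z = τ z * τ g := by
    intro g
    rw [← h.mul, ← h.mul]
    apply h.congr
    have h1 : g * z * (z * g)⁻¹ = g * z * g⁻¹ * z⁻¹ := by group
    rw [h1]
    exact hc g
  have hzz : τ z * τ z = τ 1 := by rw [← h.mul, h.triv _ hz]
  have hzi : τ z⁻¹ = τ z := by
    rw [← h.mul_one' z⁻¹, ← hzz, ← mul_assoc, ← h.mul, inv_mul_cancel, h.one_mul']
  refine ⟨fun g g' => ?_, fun g => ?_, fun x hx => ?_⟩
  · show (1 / 2 : ℚ) • (τ (g * g') + s • τ (z * (g * g'))) =
      ((1 / 2 : ℚ) • (τ g + s • τ (z * g))) * ((1 / 2 : ℚ) • (τ g' + s • τ (z * g')))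
    rw [smul_mul_smul_comm, add_mul, mul_add, mul_add, h.mul z (g * g'), h.mul z g, h.mul z g', h.mul g g']
    simp only [smul_mul_assoc, mul_smul_comm]
    have e1 : τ g * (τ z * τ g') = τ z * (τ g * τ g') := by rw [← mul_assoc, hcz, mul_assoc]
    have e2 : τ z * τ g * (τ z * τ g') = τ g * τ g' := by
      rw [← hcz, mul_assoc, ← mul_assoc (τ z), hzz, h.one_mul']
    rw [e1, e2, mul_assoc (τ z), smul_smul s s, hs, one_smul]
    module
  · show star ((1 / 2 : ℚ) • (τ g + s • τ (z * g))) = (1 / 2 : ℚ) • (τ g⁻¹ + s • τ (z * g⁻¹))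
    rw [star_smul_rat, star_add, star_smul_rat, h.adj, h.adj, mul_inv_rev, h.mul g⁻¹ z⁻¹, hzi, hcz, ← h.mul]
  · show (1 / 2 : ℚ) • (τ x + s • τ (z * x)) = (1 / 2 : ℚ) • (τ 1 + s • τ (z * 1))
    rw [h.mul z x, h.mul z 1, h.triv x hx]

lemma exists_central {N : Subgroup G} (hN : N.Normal) (h2 : ∀ g : G, ∃ k : ℕ, g ^ (2 ^ k) ∈ N) (hne : N ≠ ⊤) :
    ∃ z : G, z ∉ N ∧ z * z ∈ N ∧ ∀ g, g * z * g⁻¹ * z⁻¹ ∈ N := by
  classical
  have hQ : IsPGroup 2 (G ⧸ N) := by
    intro q
    obtain ⟨g, rfl⟩ := QuotientGroup.mk_surjective q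
    obtain ⟨k, hk⟩ := h2 g
    refine ⟨k, ?_⟩
    rw [← QuotientGroup.mk_pow]
    exact (QuotientGroup.eq_one_iff _).2 hk
  have hnt : Nontrivial (G ⧸ N) := by
    rw [← not_subsingleton_iff_nontrivial, QuotientGroup.subsingleton_iff]
    exact hne
  have : Fact (Nat.Prime 2) := ⟨Nat.prime_two⟩
  have hcen : Nontrivial (Subgroup.center (G ⧸ N)) := hQ.center_nontrivial
  obtain ⟨⟨c, hcc⟩, hc1⟩ := exists_ne (1 : Subgroup.center (G ⧸ N))
  have hc1' : c ≠ 1 := fun h => hc1 (Subtype.ext h)
  have hex := hQ c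
  set k := Nat.find hex with hk
  have hk1 : c ^ (2 ^ k) = 1 := Nat.find_spec hex
  have hk0 : k ≠ 0 := by
    intro h0
    rw [h0, pow_zero, pow_one] at hk1
    exact hc1' hk1
  have hkm : c ^ (2 ^ (k - 1)) ≠ 1 := Nat.find_min hex (by omega)
  obtain ⟨z, hz⟩ := QuotientGroup.mk_surjective (c ^ (2 ^ (k - 1)))
  have hzc : (z : G ⧸ N) ∈ Subgroup.center (G ⧸ N) := by
    rw [hz]
    exact Subgroup.pow_mem _ hcc _
  refine ⟨z, ?_, ?_, fun g => ?_⟩
  · intro h
    apply hkm
    rw [← hz]
    exact (QuotientGroup.eq_one_iff z).2 h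
  · rw [← QuotientGroup.eq_one_iff, QuotientGroup.mk_mul, hz, ← pow_two, ← pow_mul, ← pow_succ]
    rw [show k - 1 + 1 = k by omega]
    exact hk1
  · rw [← QuotientGroup.eq_one_iff]
    simp only [QuotientGroup.mk_mul, QuotientGroup.mk_inv]
    rw [Subgroup.mem_center_iff] at hzc
    rw [hzc (g : G ⧸ N)]
    group

lemma sup_normal_z {N : Subgroup G} (hN : N.Normal) {z : G} (hc : ∀ g, g * z * g⁻¹ * z⁻¹ ∈ N) :
    (N ⊔ Subgroup.zpowers z).Normal := by
  have hz : z ∈ N ⊔ Subgroup.zpowers z := (le_sup_right : Subgroup.zpowers z ≤ _) (Subgroup.mem_zpowers z)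
  refine ⟨fun n hn g => ?_⟩
  have h1 : N ⊔ Subgroup.zpowers z ≤ (N ⊔ Subgroup.zpowers z).comap (MulAut.conj g).toMonoidHom := by
    refine sup_le (fun x hx => ?_) ?_
    · rw [Subgroup.mem_comap]
      exact (le_sup_left : N ≤ _) (hN.conj_mem x hx g)
    · rw [Subgroup.zpowers_le, Subgroup.mem_comap]
      show g * z * g⁻¹ ∈ _
      have h2 : g * z * g⁻¹ = (g * z * g⁻¹ * z⁻¹) * z := by group
      rw [h2]
      exact Subgroup.mul_mem _ ((le_sup_left : N ≤ _) (hc g)) hz
  exact h1 hn

/-- elements of `N ⊔ zpowers z` are in `N` or in `z N` -/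
lemma mem_sup_z {N : Subgroup G} (hN : N.Normal) {z : G} (hz : z * z ∈ N) (hc : ∀ g, g * z * g⁻¹ * z⁻¹ ∈ N)
    {x : G} (hx : x ∈ N ⊔ Subgroup.zpowers z) : x ∈ N ∨ x * z⁻¹ ∈ N := by
  let St : Subgroup G :=
    { carrier := {x | x ∈ N ∨ x * z⁻¹ ∈ N}
      one_mem' := Or.inl N.one_mem
      mul_mem' := fun {a b} ha hb => by
        have hzN : z⁻¹ * z⁻¹ ∈ N := by
          have := N.inv_mem hz
          rwa [mul_inv_rev] at this
        rcases ha with ha | ha <;> rcases hb with hb | hb
        · exact Or.inl (N.mul_mem ha hb)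
        · refine Or.inr ?_
          rw [mul_assoc]
          exact N.mul_mem ha hb
        · refine Or.inr ?_
          have h1 : a * b * z⁻¹ = (a * z⁻¹) * (z * b * z⁻¹) := by group
          rw [h1]
          exact N.mul_mem ha (hN.conj_mem b hb z)
        · refine Or.inl ?_
          have h1 : a * b = (a * z⁻¹) * (z * (b * z⁻¹) * z⁻¹) * (z * z) := by group
          rw [h1]
          exact N.mul_mem (N.mul_mem ha (hN.conj_mem _ hb z)) hz
      inv_mem' := fun {a} ha => by
        rcases ha with ha | ha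
        · exact Or.inl (N.inv_mem ha)
        · refine Or.inr ?_
          have h1 : a⁻¹ * z⁻¹ = (z⁻¹ * (a * z⁻¹)⁻¹ * z⁻¹⁻¹) * (z * z)⁻¹ := by group
          rw [h1]
          exact N.mul_mem (hN.conj_mem _ (N.inv_mem ha) z⁻¹) (N.inv_mem hz) }
  have hSt : N ⊔ Subgroup.zpowers z ≤ St := by
    refine sup_le (fun x hx => Or.inl hx) ?_
    rw [Subgroup.zpowers_le]
    refine Or.inr ?_
    rw [mul_inv_cancel]
    exact N.one_mem
  exact hSt hx


open Classical in
/-- the sum over the subgroup -/
noncomputable def total {A : AbVar K T} (τ : G → A.D) (M : Subgroup G) : A.D := ∑ g, if g ∈ M then τ g else 0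

lemma zero_of_total {A : AbVar K T} {τ : G → A.D} {M : Subgroup G} (h : ∀ g ∈ M, τ g = τ 1) (h0 : total τ M = 0) :
    τ 1 = 0 := by
  classical
  unfold total at h0
  rw [← Finset.sum_filter, Finset.sum_congr rfl fun g hg => h g (Finset.mem_filter.1 hg).2, Finset.sum_const,
    ← Nat.cast_smul_eq_nsmul ℚ] at h0
  rcases smul_eq_zero.1 h0 with h1 | h1
  · exact absurd h1 (card_pos M)
  · exact h1

lemma total_half {A : AbVar K T} {N : Subgroup G} {τ : G → A.D} (h : Rp A N τ) (z : G) (s : ℚ) {M : Subgroup G}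
    (h0 : total τ M = 0) : total (fun g => (1 / 2 : ℚ) • (τ g + s • τ (z * g))) M = 0 := by
  classical
  have h1 : total (fun g => (1 / 2 : ℚ) • (τ g + s • τ (z * g))) M =
      (1 / 2 : ℚ) • (total τ M + s • (τ z * total τ M)) := by
    unfold total
    rw [Finset.mul_sum, Finset.smul_sum, ← Finset.sum_add_distrib, Finset.smul_sum]
    refine Finset.sum_congr rfl fun g _ => ?_
    by_cases hg : g ∈ M
    · simp only [if_pos hg, h.mul z g]
    · simp only [if_neg hg, mul_zero, smul_zero, add_zero]
  rw [h1, h0, mul_zero, smul_zero, add_zero, smul_zero]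

/-- the condition that no real character of order at most two occurs -/
def NoReal {A : AbVar K T} (τ : G → A.D) (N : Subgroup G) : Prop :=
  ∀ M : Subgroup G, N ≤ M → squares G ≤ M → total τ M = 0

lemma nil_join {A : AbVar K T} (hP : PolyPieces A) {N : Subgroup G} {τ : G → A.D} (h : Rp A N τ) {z : G}
    (hz : z * z ∈ N) (hc : ∀ g, g * z * g⁻¹ * z⁻¹ ∈ N)
    (h1 : Nil A ((1 / 2 : ℚ) • (τ 1 + (1 : ℚ) • τ (z * 1)))) (h2 : Nil A ((1 / 2 : ℚ) • (τ 1 + (-1 : ℚ) • τ (z * 1)))) :
    Nil A (τ 1) := by
  have hp := h.half hz hc (s := 1) (by norm_num)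
  have e1 : τ 1 * ((1 / 2 : ℚ) • (τ 1 + (1 : ℚ) • τ (z * 1))) = (1 / 2 : ℚ) • (τ 1 + (1 : ℚ) • τ (z * 1)) := by
    rw [mul_smul_comm, mul_add, mul_smul_comm, h.one_mul', h.one_mul']
  have e2 : ((1 / 2 : ℚ) • (τ 1 + (1 : ℚ) • τ (z * 1))) * τ 1 = (1 / 2 : ℚ) • (τ 1 + (1 : ℚ) • τ (z * 1)) := by
    rw [smul_mul_assoc, add_mul, smul_mul_assoc, h.mul_one', h.mul_one']
  refine nil_split hP (h.one_mul' 1) (hp.one_mul' 1) e1 e2 h1 ?_
  have e3 : τ 1 - (1 / 2 : ℚ) • (τ 1 + (1 : ℚ) • τ (z * 1)) = (1 / 2 : ℚ) • (τ 1 + (-1 : ℚ) • τ (z * 1)) := by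
    module
  rw [e3]
  exact h2

lemma lt_sup_z {N : Subgroup G} {z : G} (hz : z ∉ N) : N < N ⊔ Subgroup.zpowers z := by
  refine lt_of_le_of_ne le_sup_left fun h => hz ?_
  rw [h]
  exact (le_sup_right : Subgroup.zpowers z ≤ _) (Subgroup.mem_zpowers z)

lemma nil_minus {A : AbVar K T} (hP : PolyPieces A) {N : Subgroup G} (hN : N.Normal)
    (h2 : ∀ g : G, ∃ k : ℕ, g ^ (2 ^ k) ∈ N)
    (ih : ∀ N' : Subgroup G, N < N' → N'.Normal → (∀ g : G, ∃ k : ℕ, g ^ (2 ^ k) ∈ N') → ∀ τ : G → A.D,
      Rp A N' τ → NoReal τ N' → Nil A (τ 1))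
    {σ : G → A.D} (hσ : Rp A N σ) {z : G} (hzN : z ∉ N) (hz : z * z ∈ N)
    (hc : ∀ g, g * z * g⁻¹ * z⁻¹ ∈ N) (hσz : σ z = -σ 1) (hT : NoReal σ N) : Nil A (σ 1) := by
  have hN' := sup_normal_z hN hc
  have hlt := lt_sup_z hzN
  by_cases hne : N ⊔ Subgroup.zpowers z = ⊤
  · have hsq : squares G ≤ N := by
      refine Subgroup.normalClosure_le_normal ?_
      rintro _ ⟨g, rfl⟩
      show g ^ 2 ∈ N
      have hg : g ∈ N ⊔ Subgroup.zpowers z := by rw [hne]; exact Subgroup.mem_top g
      rw [pow_two]
      rcases mem_sup_z hN hz hc hg with h | h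
      · exact N.mul_mem h h
      · have h1 : g * g = (g * z⁻¹) * (z * (g * z⁻¹) * z⁻¹) * (z * z) := by group
        rw [h1]
        exact N.mul_mem (N.mul_mem h (hN.conj_mem _ h z)) hz
    rw [zero_of_total (fun g hg => hσ.triv g hg) (hT N le_rfl hsq)]
    exact nil_zero hP
  · obtain ⟨x, hxN, hx2, hxc⟩ := exists_central hN' (fun g => (h2 g).imp fun k hk => (le_sup_left : N ≤ _) hk) hne
    have hxN0 : x ∉ N := fun h => hxN ((le_sup_left : N ≤ _) h)
    have hzr : ∀ y : G, y * z⁻¹ ∈ N → σ y = -σ 1 := fun y hy => by rw [hσ.congr hy, hσz]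
    rcases mem_sup_z hN hz hc hx2 with h | h
    · by_cases hg : ∃ g, g * x * g⁻¹ * x⁻¹ ∉ N
      · obtain ⟨g, hg⟩ := hg
        have h3 : σ (g * x * g⁻¹ * x⁻¹) = -σ 1 := by
          rcases mem_sup_z hN hz hc (hxc g) with h4 | h4
          · exact absurd h4 hg
          · exact hzr _ h4
        have hgx : σ g * σ x = -(σ x * σ g) := by
          rw [← hσ.mul, ← hσ.mul]
          have h4 : g * x = (g * x * g⁻¹ * x⁻¹) * (x * g) := by group
          rw [h4, hσ.mul, h3, neg_mul, hσ.one_mul']
        have hxx : σ x * σ x = σ 1 := by rw [← hσ.mul, hσ.triv _ h]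
        have hxi : σ x⁻¹ = σ x := by
          rw [← hσ.mul_one' x⁻¹, ← hxx, ← mul_assoc, ← hσ.mul, inv_mul_cancel, hσ.one_mul']
        set p : A.D := (1 / 2 : ℚ) • (σ 1 + σ x) with hp
        set p' : A.D := (1 / 2 : ℚ) • (σ 1 - σ x) with hp'
        have e1 : σ g * p = p' * σ g := by
          rw [hp, hp', mul_smul_comm, smul_mul_assoc, mul_add, sub_mul, hgx, hσ.mul_one', hσ.one_mul', sub_eq_add_neg]
        have e2 : σ g * p' = p * σ g := by
          rw [hp, hp', mul_smul_comm, smul_mul_assoc, mul_sub, add_mul, hgx, hσ.mul_one', hσ.one_mul', sub_neg_eq_add]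
        have epp : p * p = p := by
          rw [hp, smul_mul_smul_comm, add_mul, mul_add, mul_add, hxx, hσ.one_mul', hσ.one_mul', hσ.mul_one']
          module
        have epp' : p * p' = 0 := by
          rw [hp, hp', smul_mul_smul_comm, add_mul, mul_sub, mul_sub, hxx, hσ.one_mul', hσ.one_mul', hσ.mul_one']
          module
        have ep'p : p' * p = 0 := by
          rw [hp, hp', smul_mul_smul_comm, sub_mul, mul_add, mul_add, hxx, hσ.one_mul', hσ.one_mul', hσ.mul_one']
          module
        have epadd : p + p' = σ 1 := by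
          rw [hp, hp']
          module
        have hps : star p = p := by
          rw [hp, star_smul_rat, star_add, hσ.adj, hσ.adj, inv_one, hxi]
        have hgi : σ g * σ g⁻¹ = σ 1 := by rw [← hσ.mul, mul_inv_cancel]
        have hgi' : σ g⁻¹ * σ g = σ 1 := by rw [← hσ.mul, inv_mul_cancel]
        have h1p : σ 1 * p = p := by
          rw [hp, mul_smul_comm, mul_add, hσ.one_mul', hσ.one_mul']
        have hp1 : p * σ 1 = p := by
          rw [hp, smul_mul_assoc, add_mul, hσ.mul_one', hσ.mul_one']
        have h1p' : p' * σ 1 = p' := by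
          rw [hp', smul_mul_assoc, sub_mul, hσ.mul_one', hσ.mul_one']
        have e3 : σ g⁻¹ * p = p' * σ g⁻¹ := by
          calc σ g⁻¹ * p = σ g⁻¹ * (p * (σ g * σ g⁻¹)) := by rw [hgi, hp1]
            _ = σ g⁻¹ * (p * σ g) * σ g⁻¹ := by simp only [mul_assoc]
            _ = σ g⁻¹ * (σ g * p') * σ g⁻¹ := by rw [e2]
            _ = (σ g⁻¹ * σ g) * p' * σ g⁻¹ := by simp only [mul_assoc]
            _ = p' * σ g⁻¹ := by
              rw [hgi', hp', mul_smul_comm, mul_sub, hσ.one_mul', hσ.one_mul']
        refine nil_skew hP (a := σ g * p - p * σ g⁻¹) ?_ ?_ ?_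
        · rw [star_sub, star_mul, star_mul, hps, hσ.adj, hσ.adj, inv_inv]
          abel
        · have a1 : σ g * p * (σ g * p) = 0 := by
            rw [e1, mul_assoc, ← mul_assoc (σ g), e2, ← mul_assoc, ← mul_assoc, ep'p, zero_mul, zero_mul]
          have a2 : σ g * p * (p * σ g⁻¹) = p' := by
            rw [← mul_assoc, mul_assoc (σ g) p p, epp, e1, mul_assoc, hgi, h1p']
          have a3 : p * σ g⁻¹ * (σ g * p) = p := by
            rw [mul_assoc, ← mul_assoc (σ g⁻¹), hgi', h1p, epp]
          have a4 : p * σ g⁻¹ * (p * σ g⁻¹) = 0 := by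
            rw [mul_assoc, ← mul_assoc (σ g⁻¹), e3, ← mul_assoc, ← mul_assoc, epp', zero_mul, zero_mul]
          rw [sub_mul, mul_sub, mul_sub, a1, a2, a3, a4, ← epadd]
          abel
        · rw [mul_sub, ← mul_assoc, ← mul_assoc, hσ.one_mul', h1p]
      · push Not at hg
        -- split by the central involution `x`
        have hps := hσ.half h hg (s := 1) (by norm_num)
        have hms := hσ.half h hg (s := -1) (by norm_num)
        refine nil_join hP hσ h hg ?_ ?_
        · refine ih (N ⊔ Subgroup.zpowers x) (lt_sup_z hxN0) (sup_normal_z hN hg)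
            (fun g => (h2 g).imp fun k hk => (le_sup_left : N ≤ _) hk)
            (fun g => (1 / 2 : ℚ) • (σ g + (1 : ℚ) • σ (x * g))) (hps.sup ?_)
            (fun M hM hsq => total_half hσ x 1 (hT M (le_sup_left.trans hM) hsq))
          show (1 / 2 : ℚ) • (σ x + (1 : ℚ) • σ (x * x)) = (1 / 2 : ℚ) • (σ 1 + (1 : ℚ) • σ (x * 1))
          rw [hσ.triv _ h, mul_one]
          module
        · have hxz : x * z ∉ N := by
            intro h5
            apply hxN
            have h6 : x = (x * z) * z⁻¹ := by group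
            rw [h6]
            exact Subgroup.mul_mem _ ((le_sup_left : N ≤ _) h5)
              (Subgroup.inv_mem _ ((le_sup_right : Subgroup.zpowers z ≤ _) (Subgroup.mem_zpowers z)))
          have hcxz : ∀ g, g * (x * z) * g⁻¹ * (x * z)⁻¹ ∈ N := by
            intro g
            have h6 : g * (x * z) * g⁻¹ * (x * z)⁻¹ = (g * x * g⁻¹ * x⁻¹) * (x * (g * z * g⁻¹ * z⁻¹) * x⁻¹) := by
              group
            rw [h6]
            exact N.mul_mem (hg g) (hN.conj_mem _ (hc g) x)
          refine ih (N ⊔ Subgroup.zpowers (x * z)) (lt_sup_z hxz) (sup_normal_z hN hcxz)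
            (fun g => (h2 g).imp fun k hk => (le_sup_left : N ≤ _) hk)
            (fun g => (1 / 2 : ℚ) • (σ g + (-1 : ℚ) • σ (x * g))) (hms.sup ?_)
            (fun M hM hsq => total_half hσ x (-1) (hT M (le_sup_left.trans hM) hsq))
          show (1 / 2 : ℚ) • (σ (x * z) + (-1 : ℚ) • σ (x * (x * z))) = (1 / 2 : ℚ) • (σ 1 + (-1 : ℚ) • σ (x * 1))
          have h7 : σ (x * (x * z)) = -σ 1 := by
            rw [← mul_assoc, hσ.mul, hσ.triv _ h, hσ.one_mul', hσz]
          rw [h7, hσ.mul x z, hσz, mul_one, mul_neg, hσ.mul_one']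
          module
    · have hxx : σ x * σ x = -σ 1 := by rw [← hσ.mul, hzr _ h]
      refine nil_skew hP (a := σ x) ?_ hxx (hσ.one_mul' x)
      rw [hσ.adj]
      have h5 : σ x⁻¹ * (σ x * σ x) = σ x := by
        rw [← mul_assoc, ← hσ.mul, inv_mul_cancel, hσ.one_mul']
      rw [hxx, mul_neg, hσ.mul_one'] at h5
      rw [← h5, neg_neg]

theorem nil_two {A : AbVar K T} (hP : PolyPieces A) (N : Subgroup G) : N.Normal →
    (∀ g : G, ∃ k : ℕ, g ^ (2 ^ k) ∈ N) → ∀ τ : G → A.D, Rp A N τ → NoReal τ N → Nil A (τ 1) := by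
  induction N using WellFoundedGT.induction with
  | ind N ih =>
    intro hN h2 τ hτ hT
    by_cases hne : N = ⊤
    · rw [zero_of_total (fun g hg => hτ.triv g (by rw [hne]; exact Subgroup.mem_top g)) (hT ⊤ le_top le_top)]
      exact nil_zero hP
    · obtain ⟨z, hzN, hz, hc⟩ := exists_central hN h2 hne
      have hps := hτ.half hz hc (s := 1) (by norm_num)
      have hms := hτ.half hz hc (s := -1) (by norm_num)
      refine nil_join hP hτ hz hc ?_ ?_
      · refine ih (N ⊔ Subgroup.zpowers z) (lt_sup_z hzN) (sup_normal_z hN hc)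
          (fun g => (h2 g).imp fun k hk => (le_sup_left : N ≤ _) hk)
          (fun g => (1 / 2 : ℚ) • (τ g + (1 : ℚ) • τ (z * g))) (hps.sup ?_)
          (fun M hM hsq => total_half hτ z 1 (hT M (le_sup_left.trans hM) hsq))
        show (1 / 2 : ℚ) • (τ z + (1 : ℚ) • τ (z * z)) = (1 / 2 : ℚ) • (τ 1 + (1 : ℚ) • τ (z * 1))
        rw [hτ.triv _ hz, mul_one]
        module
      · refine nil_minus hP hN h2 (fun N' h => ih N' h) (σ := fun g => (1 / 2 : ℚ) • (τ g + (-1 : ℚ) • τ (z * g)))
          hms hzN hz hc ?_ (fun M hM hsq => total_half hτ z (-1) (hT M hM hsq))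
        show (1 / 2 : ℚ) • (τ z + (-1 : ℚ) • τ (z * z)) = -((1 / 2 : ℚ) • (τ 1 + (-1 : ℚ) • τ (z * 1)))
        rw [hτ.triv _ hz, mul_one]
        module


lemma mem_norm {H : Subgroup G} (hH : H.Normal) (g : G) : g ∈ Subgroup.normalizer (H : Set G) := by
  rw [Subgroup.mem_normalizer_iff]
  refine fun h => ⟨fun hh => hH.conj_mem h hh g, fun hh => ?_⟩
  have h2 := hH.conj_mem _ hh g⁻¹
  have h3 : g⁻¹ * (g * h * g⁻¹) * g⁻¹⁻¹ = h := by group
  rwa [h3] at h2

/-- **Quotients which are `2`-groups.** -/
theorem two_step {A : AbVar K T} {ρ : GroupAction A G} (hP : PolyPieces A) (H : Subgroup G) (hH : H.Normal)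
    (h2 : ∀ g : G, ∃ k : ℕ, g ^ (2 ^ k) ∈ H) : Same0 A ρ H (H ⊔ squares G) := by
  classical
  have := hH
  have : (squares G).Normal := Subgroup.normalClosure_normal
  have hK : (H ⊔ squares G).Normal := inferInstance
  set M := H ⊔ squares G with hM
  have hHM : H ≤ M := le_sup_left
  obtain ⟨hef, hfe⟩ := sup_mul A ρ hHM
  set e := average A ρ H with he
  set f := average A ρ M with hf
  have hee : e * e = e := average_idem A ρ H
  have hff : f * f = f := average_idem A ρ M
  set δ := e - f with hδ
  have hδδ : δ * δ = δ := by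
    rw [hδ, sub_mul, mul_sub, mul_sub, hee, hef, hfe, hff]
    abel
  have hcδ : ∀ g, ρ.act g * δ = δ * ρ.act g := by
    intro g
    rw [hδ, mul_sub, sub_mul, comm_average A ρ (mem_norm hH g), comm_average A ρ (mem_norm hK g)]
  have hRp : Rp A H (fun g => ρ.act g * δ) := by
    refine ⟨fun g h => ?_, fun g => ?_, fun h hh => ?_⟩
    · show ρ.act (g * h) * δ = ρ.act g * δ * (ρ.act h * δ)
      rw [R_mul, mul_assoc (ρ.act g) δ, ← mul_assoc δ, ← hcδ, mul_assoc (ρ.act h), hδδ, mul_assoc]
    · show star (ρ.act g * δ) = ρ.act g⁻¹ * δ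
      rw [star_mul, R_inv, hδ, star_sub, he, hf, star_average, star_average, ← he, ← hf, ← hδ, ← hcδ]
    · show ρ.act h * δ = ρ.act 1 * δ
      rw [R_one, one_mul, hδ, mul_sub, mul_average A ρ hh, mul_average A ρ (hHM hh)]
  have hNR : NoReal (fun g => ρ.act g * δ) H := by
    intro L hHL hsL
    have hML : M ≤ L := sup_le hHL hsL
    have h1 : total (fun g => ρ.act g * δ) L = (Nat.card L : ℚ) • (average A ρ L * δ) := by
      unfold total average
      have hc : (Nat.card L : ℚ) ≠ 0 := by exact_mod_cast (Nat.card_pos (α := L)).ne'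
      rw [smul_mul_assoc, smul_smul, mul_inv_cancel₀ hc, one_smul, Finset.sum_mul]
      refine Finset.sum_congr rfl fun g _ => ?_
      split_ifs
      · rfl
      · rw [zero_mul]
    rw [h1, hδ, mul_sub, (sup_mul A ρ hHL).2, (sup_mul A ρ hML).2, sub_self, smul_zero]
  have hnil := nil_two hP H hH h2 _ hRp hNR
  have h1 : ρ.act 1 * δ = δ := by rw [R_one, one_mul]
  rw [h1] at hnil
  constructor
  · have h3 := finrank_range_idem (Module.toModuleEnd ℚ A.MW e) (Module.toModuleEnd ℚ A.MW f)
      (by rw [← map_mul, hee]) (by rw [← map_mul, hff]) (by rw [← map_mul, hef]) (by rw [← map_mul, hfe])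
    rw [← map_sub] at h3
    unfold rankFix
    rw [fixedVectors_eq, fixedVectors_eq, h3, Nat.even_add]
    exact ⟨fun h => h.2 hnil.1, fun h => ⟨fun _ => hnil.1, fun _ => h⟩⟩
  · have h3 := rootAt_idem A hP hee hff hef hfe
    rw [hnil.2, mul_one] at h3
    exact h3

/-- The action of a subgroup. -/
def res {A : AbVar K T} (ρ : GroupAction A G) (N : Subgroup G) : GroupAction A N where
  act n := ρ.act n
  act_one := ρ.act_one
  act_mul g h := ρ.act_mul g h
  act_star g := ρ.act_star g

lemma average_res {A : AbVar K T} {ρ : GroupAction A G} {H N : Subgroup G} [Fintype N] (h : H ≤ N) :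
    average A (res ρ N) (H.subgroupOf N) = average A ρ H := by
  classical
  unfold average
  have h1 : Nat.card (H.subgroupOf N) = Nat.card H := Nat.card_congr (Subgroup.subgroupOfEquivOfLe h).toEquiv
  rw [h1]
  congr 1
  have h2 : ∑ n : N, (if (n : G) ∈ H then ρ.act (n : G) else 0) =
      ∑ g ∈ Finset.univ.filter (fun g => g ∈ N), (if g ∈ H then ρ.act g else 0) :=
    (Finset.sum_subtype (p := fun g => g ∈ N) _ (fun x => by simp) fun g => if g ∈ H then ρ.act g else 0).symm
  have h3 : ∑ g ∈ Finset.univ.filter (fun g => g ∈ N), (if g ∈ H then ρ.act g else 0) =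
      ∑ g, (if g ∈ H then ρ.act g else 0) := by
    rw [Finset.sum_filter]
    refine Finset.sum_congr rfl fun g _ => ?_
    by_cases hg : g ∈ H
    · rw [if_pos (h hg)]
    · rw [if_neg hg, ite_self]
  rw [← h3, ← h2]
  refine Finset.sum_congr rfl fun n _ => ?_
  rfl

/-- **The odd part.** -/
theorem odd_step {A : AbVar K T} {ρ : GroupAction A G} (hP : PolyPieces A) (H N : Subgroup G) (hH : H.Normal)
    (h : H ≤ N) (hs : Group.IsSolvable (N ⧸ H.subgroupOf N)) (ho : Odd (Nat.card (N ⧸ H.subgroupOf N))) :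
    Same0 A ρ H N := by
  classical
  have := hH
  let _ : Fintype N := Fintype.ofFinite N
  obtain ⟨h1, h2⟩ := solvable_step (A := A) (ρ := res ρ N) hP (H.subgroupOf N) hs ho
  have e1 : average A (res ρ N) ⊤ = average A ρ N := by
    have e2 := average_res (ρ := ρ) (le_refl N)
    rwa [Subgroup.subgroupOf_self] at e2
  have r1 : rankFix A (res ρ N) (H.subgroupOf N) = rankFix A ρ H := by
    unfold rankFix
    rw [fixedVectors_eq, fixedVectors_eq, average_res h]
  have r2 : rankFix A (res ρ N) ⊤ = rankFix A ρ N := by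
    unfold rankFix
    rw [fixedVectors_eq, fixedVectors_eq, e1]
  have w1 : rootFix A (res ρ N) (H.subgroupOf N) = rootFix A ρ H := by
    unfold rootFix
    rw [average_res h]
  have w2 : rootFix A (res ρ N) ⊤ = rootFix A ρ N := by
    unfold rootFix
    rw [e1]
  rw [r1, r2] at h1
  rw [w1, w2] at h2
  exact ⟨h1, h2⟩

theorem nilpotent_step {A : AbVar K T} {ρ : GroupAction A G} (hP : PolyPieces A) (H N : Subgroup G) (hH : H.Normal)
    (hN : N.Normal) (h : H ≤ N) (hs : Group.IsSolvable (N ⧸ H.subgroupOf N))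
    (ho : Odd (Nat.card (N ⧸ H.subgroupOf N))) (h2 : ∀ g : G, ∃ k : ℕ, g ^ (2 ^ k) ∈ N) :
    Same0 A ρ H (N ⊔ squares G) :=
  (odd_step hP H N hH h hs ho).trans (two_step hP N hN h2)

end TwoGroups

section KaniRosen

variable {G : Type} [Group G] [Fintype G] {A : AbVar K T} {ρ : GroupAction A G}

/-- The average over the subgroup generated by `N` and an involution modulo `N`. -/
lemma average_sup_z {N : Subgroup G} (hN : N.Normal) {x : G} (hx : x * x ∈ N) :
    average A ρ (N ⊔ Subgroup.zpowers x) =
      (1 / 2 : ℚ) • (average A ρ N + ρ.act x * average A ρ N) := by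
  set M := N ⊔ Subgroup.zpowers x with hM
  have hNM : N ≤ M := le_sup_left
  have hxM : x ∈ M := (le_sup_right : Subgroup.zpowers x ≤ M) (Subgroup.mem_zpowers x)
  set e := average A ρ N with he
  set p : A.D := (1 / 2 : ℚ) • (e + ρ.act x * e) with hp
  have h1 : average A ρ M * p = average A ρ M := by
    rw [hp, mul_smul_comm, mul_add, ← mul_assoc, average_mul A ρ hxM, (sup_mul A ρ hNM).2]
    module
  have hxe : ρ.act x * (ρ.act x * e) = e := by
    rw [← mul_assoc, ← R_mul, mul_average A ρ hx]
  let St : Subgroup G :=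
    { carrier := {m | ρ.act m * p = p}
      mul_mem' := fun {a b} ha hb => by
        show ρ.act (a * b) * p = p
        rw [R_mul, mul_assoc, show ρ.act b * p = p from hb, show ρ.act a * p = p from ha]
      one_mem' := by
        show ρ.act 1 * p = p
        rw [R_one, one_mul]
      inv_mem' := fun {a} ha => by
        show ρ.act a⁻¹ * p = p
        have h2 : ρ.act a * p = p := ha
        calc ρ.act a⁻¹ * p = ρ.act a⁻¹ * (ρ.act a * p) := by rw [h2]
          _ = p := by rw [← mul_assoc, ← R_mul, inv_mul_cancel, R_one, one_mul] }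
  have hSt : M ≤ St := by
    refine sup_le (fun h hh => ?_) ?_
    · show ρ.act h * p = p
      have h3 : ρ.act h * (ρ.act x * e) = ρ.act x * e := by
        have h4 : h * x = x * (x⁻¹ * h * x⁻¹⁻¹) := by group
        rw [← mul_assoc, ← R_mul, h4, R_mul, mul_assoc, mul_average A ρ (hN.conj_mem h hh x⁻¹)]
      rw [hp, mul_smul_comm, mul_add, mul_average A ρ hh, h3]
    · rw [Subgroup.zpowers_le]
      show ρ.act x * p = p
      rw [hp, mul_smul_comm, mul_add, hxe, add_comm]
  rw [← h1]
  exact absorb_right A ρ fun m hm => hSt hm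

/-- rank and root number together -/
def Val (A : AbVar K T) (e : A.D) (r : ℕ) (w : ℂˣ) : Prop :=
  Module.finrank ℚ (LinearMap.range (Module.toModuleEnd ℚ A.MW e)) = r ∧ rootAt A e 1 = w

lemma val_split (hP : PolyPieces A) {e f : A.D} (he : e * e = e) (hf : f * f = f) (hef : e * f = f) (hfe : f * e = f)
    {r r' : ℕ} {w w' : ℂˣ} (h1 : Val A f r w) (h2 : Val A (e - f) r' w') : Val A e (r + r') (w * w') := by
  constructor
  · have h3 := finrank_range_idem (Module.toModuleEnd ℚ A.MW e) (Module.toModuleEnd ℚ A.MW f)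
      (by rw [← map_mul, he]) (by rw [← map_mul, hf]) (by rw [← map_mul, hef]) (by rw [← map_mul, hfe])
    rw [← map_sub] at h3
    rw [h3, h1.1, h2.1]
  · rw [rootAt_idem A hP he hf hef hfe, h1.2, h2.2]

lemma val_average (H : Subgroup G) : Val A (average A ρ H) (rankFix A ρ H) (rootFix A ρ H) := by
  constructor
  · unfold rankFix
    rw [fixedVectors_eq]
  · rfl

omit [Fintype G] in
lemma mem_sq {N : Subgroup G} (hsq : squares G ≤ N) (g : G) : g * g ∈ N := by
  rw [← pow_two]
  exact hsq (Subgroup.subset_normalClosure ⟨g, rfl⟩)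

omit [Fintype G] in
lemma mem_comm {N : Subgroup G} (hN : N.Normal) (hsq : squares G ≤ N) (g h : G) : g * h * g⁻¹ * h⁻¹ ∈ N := by
  have h1 : g * h * g⁻¹ * h⁻¹ = ((g * h) * (g * h)) * (h⁻¹ * (g⁻¹ * g⁻¹) * h⁻¹⁻¹) * (h⁻¹ * h⁻¹) := by group
  rw [h1]
  exact N.mul_mem (N.mul_mem (mem_sq hsq _) (hN.conj_mem _ (mem_sq hsq _) _)) (mem_sq hsq _)

/-- **The relation of Kani and Rosen.** -/
theorem kani_rosen (hP : PolyPieces A) {N : Subgroup G} (hN : N.Normal) (hsq : squares G ≤ N) (x y : G) :
    rankFix A ρ N + 2 * rankFix A ρ (N ⊔ Subgroup.zpowers x ⊔ Subgroup.zpowers y) =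
      rankFix A ρ (N ⊔ Subgroup.zpowers x) + rankFix A ρ (N ⊔ Subgroup.zpowers y) +
        rankFix A ρ (N ⊔ Subgroup.zpowers (x * y)) ∧
    rootFix A ρ N * rootFix A ρ (N ⊔ Subgroup.zpowers x ⊔ Subgroup.zpowers y) ^ 2 =
      rootFix A ρ (N ⊔ Subgroup.zpowers x) * rootFix A ρ (N ⊔ Subgroup.zpowers y) *
        rootFix A ρ (N ⊔ Subgroup.zpowers (x * y)) := by
  have hc := mem_comm hN hsq
  have hNx := sup_normal_z hN (z := x) fun g => hc g x
  set Nx := N ⊔ Subgroup.zpowers x with hNxd
  set Ny := N ⊔ Subgroup.zpowers y with hNyd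
  set Nz := N ⊔ Subgroup.zpowers (x * y) with hNzd
  set L := Nx ⊔ Subgroup.zpowers y with hL
  have l0 : N ≤ Nx := le_sup_left
  have l1 : Nx ≤ L := le_sup_left
  have l2 : Ny ≤ L := sup_le (le_sup_left.trans le_sup_left) le_sup_right
  have hxN : x ∈ Nx := (le_sup_right : Subgroup.zpowers x ≤ Nx) (Subgroup.mem_zpowers x)
  have l3 : Nz ≤ L := by
    refine sup_le (le_sup_left.trans le_sup_left) ?_
    rw [Subgroup.zpowers_le]
    exact L.mul_mem (l1 hxN) ((le_sup_right : Subgroup.zpowers y ≤ L) (Subgroup.mem_zpowers y))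
  set e := average A ρ N with he
  set e1 := average A ρ Nx with he1
  set e2 := average A ρ Ny with he2
  set e3 := average A ρ Nz with he3
  set f := average A ρ L with hf
  have a1 : e1 = (1 / 2 : ℚ) • (e + ρ.act x * e) := average_sup_z hN (mem_sq hsq x)
  have a2 : e2 = (1 / 2 : ℚ) • (e + ρ.act y * e) := average_sup_z hN (mem_sq hsq y)
  have a3 : e3 = (1 / 2 : ℚ) • (e + ρ.act (x * y) * e) := average_sup_z hN (mem_sq hsq _)
  have a4 : f = (1 / 2 : ℚ) • (e1 + ρ.act y * e1) := average_sup_z hNx (l0 (mem_sq hsq y))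
  have hyx : ρ.act y * (ρ.act x * e) = ρ.act (x * y) * e := by
    have h1 : y * x = (x * y) * (y⁻¹ * x⁻¹ * y⁻¹⁻¹ * x⁻¹⁻¹) := by group
    rw [← mul_assoc, ← R_mul, h1, R_mul, mul_assoc, mul_average A ρ (hc y⁻¹ x⁻¹)]
  have rel : e + (2 : ℚ) • f = e1 + e2 + e3 := by
    rw [a4, a1, mul_smul_comm, mul_add, hyx, a2, a3]
    module
  have hee : e * e = e := average_idem A ρ N
  have h11 : e1 * e1 = e1 := average_idem A ρ Nx
  have h22 : e2 * e2 = e2 := average_idem A ρ Ny
  have h33 : e3 * e3 = e3 := average_idem A ρ Nz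
  have hff : f * f = f := average_idem A ρ L
  obtain ⟨b1, b1'⟩ := sup_mul A ρ l0
  obtain ⟨b2, b2'⟩ := sup_mul A ρ (le_sup_left : N ≤ Ny)
  obtain ⟨b4, b4'⟩ := sup_mul A ρ (l0.trans l1)
  obtain ⟨c1, c1'⟩ := sup_mul A ρ l1
  obtain ⟨c2, c2'⟩ := sup_mul A ρ l2
  obtain ⟨c3, c3'⟩ := sup_mul A ρ l3
  rw [← he, ← he1] at b1 b1'
  rw [← he, ← he2] at b2 b2'
  rw [← he, ← hf] at b4 b4'
  rw [← he1, ← hf] at c1 c1'
  rw [← he2, ← hf] at c2 c2'
  rw [← he3, ← hf] at c3 c3'
  have e12 : e1 * e2 = f := by
    rw [a2, mul_smul_comm, mul_add, b1', ← mul_assoc, ← comm_average A ρ (mem_norm hNx y), mul_assoc, b1', a4]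
  have e21 : e2 * e1 = f := by
    have h1 := congrArg star e12
    rw [star_mul, he1, he2, hf, star_average, star_average, star_average] at h1
    exact h1
  -- the values
  have v1 : Val A e1 (rankFix A ρ Nx) (rootFix A ρ Nx) := val_average Nx
  have w2 := val_split hP h22 hff c2 c2' (val_average (A := A) (ρ := ρ) L)
    (⟨rfl, rfl⟩ : Val A (e2 - f) (Module.finrank ℚ (LinearMap.range (Module.toModuleEnd ℚ A.MW (e2 - f)))) (rootAt A (e2 - f) 1))
  have w3 := val_split hP h33 hff c3 c3' (val_average (A := A) (ρ := ρ) L)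
    (⟨rfl, rfl⟩ : Val A (e3 - f) (Module.finrank ℚ (LinearMap.range (Module.toModuleEnd ℚ A.MW (e3 - f)))) (rootAt A (e3 - f) 1))
  set r2 := Module.finrank ℚ (LinearMap.range (Module.toModuleEnd ℚ A.MW (e2 - f))) with hr2
  set r3 := Module.finrank ℚ (LinearMap.range (Module.toModuleEnd ℚ A.MW (e3 - f))) with hr3
  set o2 := rootAt A (e2 - f) 1 with ho2
  set o3 := rootAt A (e3 - f) 1 with ho3
  have hd : (e - e1) - (e2 - f) = e3 - f := by
    have h1 : e = e1 + e2 + e3 - (2 : ℚ) • f := by rw [← rel, add_sub_cancel_right]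
    rw [h1]
    module
  have w4 : Val A (e - e1) (r2 + r3) (o2 * o3) := by
    refine val_split hP ?_ ?_ ?_ ?_ (⟨rfl, rfl⟩ : Val A (e2 - f) r2 o2) ?_
    · rw [sub_mul, mul_sub, mul_sub, hee, b1, b1', h11]
      abel
    · rw [sub_mul, mul_sub, mul_sub, h22, c2, c2', hff]
      abel
    · rw [sub_mul, mul_sub, mul_sub, b2, b4, e12, c1]
      abel
    · rw [sub_mul, mul_sub, mul_sub, b2', e21, b4', c1']
      abel
    · rw [hd]
      exact ⟨rfl, rfl⟩
  have w5 := val_split hP hee h11 b1 b1' v1 w4
  have v0 : Val A e (rankFix A ρ N) (rootFix A ρ N) := val_average N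
  have v2 : Val A e2 (rankFix A ρ Ny) (rootFix A ρ Ny) := val_average Ny
  have v3 : Val A e3 (rankFix A ρ Nz) (rootFix A ρ Nz) := val_average Nz
  have k0 : rankFix A ρ N = rankFix A ρ Nx + (r2 + r3) := by rw [← v0.1, w5.1]
  have k2 : rankFix A ρ Ny = rankFix A ρ L + r2 := by rw [← v2.1, w2.1]
  have k3 : rankFix A ρ Nz = rankFix A ρ L + r3 := by rw [← v3.1, w3.1]
  have m0 : rootFix A ρ N = rootFix A ρ Nx * (o2 * o3) := by rw [← v0.2, w5.2]
  have m2 : rootFix A ρ Ny = rootFix A ρ L * o2 := by rw [← v2.2, w2.2]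
  have m3 : rootFix A ρ Nz = rootFix A ρ L * o3 := by rw [← v3.2, w3.2]
  constructor
  · omega
  · rw [m0, m2, m3, pow_two]
    simp only [mul_assoc, mul_comm, mul_left_comm]

/-- Elementary abelian quotients: the parity conjecture follows from the one for the subgroups of index at most two. -/
theorem parity_elementary (hP : PolyPieces A) (hM : ∀ M : Subgroup G, M.index ≤ 2 → ParityFix A ρ M) (N : Subgroup G) :
    N.Normal → squares G ≤ N → ParityFix A ρ N := by
  induction N using WellFoundedGT.induction with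
  | ind N ih =>
    intro hN hsq
    by_cases hi : N.index ≤ 2
    · exact hM N hi
    · have hc := mem_comm hN hsq
      obtain ⟨x, hx⟩ : ∃ x, x ∉ N := by
        by_contra hcon
        push Not at hcon
        have h1 : N = ⊤ := by
          rw [eq_top_iff]
          exact fun g _ => hcon g
        rw [h1, Subgroup.index_top] at hi
        omega
      obtain ⟨y, hy⟩ : ∃ y, y ∉ N ⊔ Subgroup.zpowers x := by
        by_contra hcon
        push Not at hcon
        apply hi
        have h1 : N.index = 2 := by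
          rw [Subgroup.index_eq_two_iff]
          refine ⟨x⁻¹, fun b => ?_⟩
          rcases mem_sup_z hN (mem_sq hsq x) (fun g => hc g x) (hcon b) with h | h
          · refine Or.inr ⟨h, fun h2 => hx ?_⟩
            have h3 : x = (b * x⁻¹)⁻¹ * b := by group
            rw [h3]
            exact N.mul_mem (N.inv_mem h2) h
          · refine Or.inl ⟨h, fun h2 => hx ?_⟩
            have h3 : x = (b * x⁻¹)⁻¹ * b := by group
            rw [h3]
            exact N.mul_mem (N.inv_mem h) h2
        omega
      have hyN : y ∉ N := fun h => hy ((le_sup_left : N ≤ _) h)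
      have hxy : x * y ∉ N := by
        intro h
        apply hy
        have h3 : y = x⁻¹ * (x * y) := by group
        rw [h3]
        exact Subgroup.mul_mem _ (Subgroup.inv_mem _ ((le_sup_right : Subgroup.zpowers x ≤ _) (Subgroup.mem_zpowers x)))
          ((le_sup_left : N ≤ _) h)
      have hNx := sup_normal_z hN (z := x) fun g => hc g x
      obtain ⟨h1, h2⟩ := kani_rosen (A := A) (ρ := ρ) hP hN hsq x y
      have q1 := ih _ (lt_sup_z hx) hNx (hsq.trans le_sup_left)
      have q2 := ih _ (lt_sup_z hyN) (sup_normal_z hN fun g => hc g y) (hsq.trans le_sup_left)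
      have q3 := ih _ (lt_sup_z hxy) (sup_normal_z hN fun g => hc g (x * y)) (hsq.trans le_sup_left)
      have q4 := ih _ ((lt_sup_z hx).trans (lt_sup_z hy))
        (sup_normal_z hNx fun g => (le_sup_left : N ≤ _) (hc g y)) ((hsq.trans le_sup_left).trans le_sup_left)
      unfold ParityFix at q1 q2 q3 q4 ⊢
      rw [← q1, ← q2, ← q3, ← q4, ← pow_mul, ← pow_add, ← pow_add, mul_comm (rankFix A ρ _) 2] at h2
      rw [← h1, pow_add] at h2
      exact (mul_right_cancel h2).symm

end KaniRosen

/-- The kernel of `a` on `A(K) ⊗ ℚ`. -/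
def kernel (A : AbVar K T) (a : A.D) : Submodule ℚ A.MW := LinearMap.ker (Module.toModuleEnd ℚ A.MW a)

/-- The root number of the kernel of `a`. -/
noncomputable def rootKernel (A : AbVar K T) (a : A.D) : ℂˣ := ∏ᶠ v : Place K, (T v).root (A.reps.piece v a 0)

/-- **The parity conjecture for abelian varieties with an action of a finite group.** -/
theorem result (K : Type) [Field K] [NumberField K] (T : ∀ v : Place K, LocalTheory (Compl K v)) (A : AbVar K T)
    (hP : PolyPieces A) :
    -- 1. skew endomorphisms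
    (∀ a : A.D, star a = -a →
      (Even A.rank ↔ Even (Module.finrank ℚ (kernel A a))) ∧ A.globalRoot = rootKernel A a) ∧
    -- an action of a finite group `G` on `A` which preserves the polarization
    (∀ (G : Type) [Group G] [Fintype G] (ρ : GroupAction A G),
      -- for `H = 1` the rank and the root number of `A^H` are those of `A`
      (rankFix A ρ ⊥ = A.rank ∧ rootFix A ρ ⊥ = A.globalRoot) ∧
      -- 2. the step from `H` to the subgroup generated by `H` and `g²`
      (∀ (H : Subgroup G) (g : G), (∀ h, h ∈ H ↔ g * h * g⁻¹ ∈ H) → Same A ρ H (H ⊔ Subgroup.zpowers (g ^ 2))) ∧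
      -- 3. normal subgroups `H ≤ N` such that `N / H` is solvable of odd order and `G / N` is a `2`-group
      (∀ (H N : Subgroup G) [H.Normal] [N.Normal], H ≤ N → Group.IsSolvable (N ⧸ H.subgroupOf N) →
        Odd (Nat.card (N ⧸ H.subgroupOf N)) → (∀ g : G, ∃ k : ℕ, g ^ (2 ^ k) ∈ N) →
        Same A ρ H (N ⊔ squares G) ∧
        (average A ρ (N ⊔ squares G) = 0 → ParityFix A ρ H) ∧
        ((∀ M : Subgroup G, M.index ≤ 2 → ParityFix A ρ M) → ParityFix A ρ H))) := by
  refine ⟨fun a hs => ⟨?_, globalRoot_ker A hP hs⟩, fun G _ _ ρ => ⟨⟨rankFix_bot A ρ, rootFix_bot A ρ⟩,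
    fun H g hg => ?_, fun H N hH hN hHN hs ho h2 => ?_⟩⟩
  · have h1 := LinearMap.finrank_range_add_finrank_ker (Module.toModuleEnd ℚ A.MW a)
    have h3 : Even (Module.finrank ℚ (LinearMap.range (Module.toModuleEnd ℚ A.MW a))) := by
      refine even_finrank_range A.isHeight _ fun x y => ?_
      show A.height (a • x) y = -A.height x (a • y)
      rw [A.height_star, hs, neg_smul, neg_right A.isHeight]
    unfold AbVar.rank kernel
    rw [← h1, Nat.even_add]
    exact ⟨fun h => h.1 h3, fun h => ⟨fun _ => h, fun _ => h3⟩⟩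
  · have h := step A ρ hP (H := H) (g := g) (Subgroup.mem_normalizer_iff.2 hg)
    exact ⟨h.1, h.2, h.parity⟩
  · have h := nilpotent_step (A := A) (ρ := ρ) hP H N hH hN hHN hs ho h2
    have hsN : (squares G).Normal := Subgroup.normalClosure_normal
    have hS : (N ⊔ squares G).Normal := inferInstance
    refine ⟨⟨h.1, h.2, h.parity⟩, fun h0 => h.parity.2 ?_, fun hM => h.parity.2 ?_⟩
    · have h3 := val_average (A := A) (ρ := ρ) (N ⊔ squares G)
      have h4 := nil_zero (A := A) hP
      rw [h0] at h3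
      unfold ParityFix
      rw [← h3.1, ← h3.2, h4.2, h4.1.neg_one_pow]
    · exact parity_elementary hP hM _ hS le_sup_right

end Pool.Agent.Results.MP_ac3185_nt.FiniteGroupActions
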