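import Pool.Agent.Zk24.PV.Fin
import Pool.Agent.Zk24.PV.Ex
import Pool.Agent.N922.PQ.Unr

/-!
# The parity conjecture for the forms of the powers of elliptic curves split by a Galois 2-extension

Let `F / ℚ` be ANY Galois extension of degree `2 ^ n`, `n ≥ 1`, in which the prime `2` is unramified.
Let `M = ℤ ^ g` be a lattice with an action `R : Gal(F / ℚ) → GL_g(ℤ)`. For an elliptic curve `E / ℚ` we
have the abelian variety `A = E ⊗ M` over `ℚ` of dimension `g`: the form of `E ^ g` given by the cocycle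
`R`. For instance, `M = ℤ[Gal(F / ℚ) / Gal(F / L)]` gives the Weil restriction of `E` from `L` to `ℚ`, for
any field `L` between `ℚ` and `F`. If `E` has no complex multiplication then every abelian variety over
`ℚ` which becomes isogenous to a power of `E` over `F` is isogenous over `ℚ` to such an `A`.

Theorem. Among ALL elliptic curves `E / ℚ`, ordered by height, a positive proportion has the following
property: for ALL `g` and `R`, the abelian variety `A = E ⊗ M` has no rational points over `F` except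
`0`, and its global root number is `w(A / ℚ) = w(E / ℚ) ^ g`. Hence the parity conjecture
`(-1) ^ rk A(ℚ) = w(A / ℚ)` holds for all these `A` of even dimension (and for those of odd dimension if
`w(E / ℚ) = 1`, that is, if it holds for `E / ℚ`).

The local root numbers enter by the known formulas for `E ⊗ M` in terms of `E` and of the quadratic
character `det R`, that of `ℚ(√d)`, see `LocalRootNumbers`: the equality is proved for all functions
`wE`, `wA` on the prime numbers with these properties, in particular for the local root numbers defined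
by the local constants.

The proof. (1) `E(F) = 0`: this is the theorem for MP_775b3b_nt, which proves `Sel_2(E / F) = 0` for a
positive proportion of all `E / ℚ`; these curves are twists by `D` of the curves
`y ^ 2 = x ^ 3 + a x + b`, with `a`, `b` odd, `N = 4 a ^ 3 + 27 b ^ 2 > 0` squarefree, `x ^ 3 + a x + b` is
irreducible modulo `2`, `3` and the primes which ramify in `F`, and all prime divisors of `D` split
completely in `F`. (2) `w(A / ℚ_p) / w(E / ℚ_p) ^ g` is `(-1 / p)` for `p ∣ d`, where `E` has good reduction,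
`(d / p)` for `p ∣ N`, where `E` has multiplicative reduction and `F` is unramified, and `1` for all other
`p`: for `p ∣ D` since `(d / p) = 1`, and for `p = 2` since the exponent of the conductor of `E` at `2` is
`4`. As `- N` is a square modulo the prime divisors of `d` (the discriminant of an irreducible cubic
polynomial over a finite field is a square), both products are the sign of `d`, by the quadratic
reciprocity law.

The files of helper922 (projects PQ, PV, PX) are used.
-/

set_option autoImplicit false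
set_option linter.all false

namespace Pool.Agent.Results.MP_ac3185_nt.FormsOfPowers

open Filter NumberField IsDedekindDomain
open scoped Classical

/-! ### Elliptic curves over `ℚ` -/

/-- The equation `y ^ 2 = x ^ 3 + A x + B` with integers `A`, `B` defines an elliptic curve, and
there is no prime `p` with `p ^ 4 ∣ A` and `p ^ 6 ∣ B`. Every elliptic curve over `ℚ` is isomorphic to
exactly one of these. -/
structure IsMinimal (A B : ℤ) : Prop where
  elliptic : 4 * A ^ 3 + 27 * B ^ 2 ≠ 0
  minimal : ∀ p : ℕ, p.Prime → ¬ ((p : ℤ) ^ 4 ∣ A ∧ (p : ℤ) ^ 6 ∣ B)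

/-- The height. -/
def height (p : ℤ × ℤ) : ℤ := max (4 * |p.1| ^ 3) (27 * p.2 ^ 2)

/-- The set of all elliptic curves over `ℚ` of height at most `X`. -/
def Curves (X : ℕ) : Set (ℤ × ℤ) := {p | IsMinimal p.1 p.2 ∧ height p ≤ X}

/-- The curve `y ^ 2 = x ^ 3 + A x + B` over `ℚ`. -/
def curve (p : ℤ × ℤ) : WeierstrassCurve ℚ := ⟨0, 0, 0, (p.1 : ℚ), (p.2 : ℚ)⟩

/-- The coefficients of the equation are integral at the prime number `p`. -/
structure IntegralAt (p : ℕ) (W : WeierstrassCurve ℚ) : Prop where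
  a₁ : padicNorm p W.a₁ ≤ 1
  a₂ : padicNorm p W.a₂ ≤ 1
  a₃ : padicNorm p W.a₃ ≤ 1
  a₄ : padicNorm p W.a₄ ≤ 1
  a₆ : padicNorm p W.a₆ ≤ 1

/-- Good reduction at `p`: there is a Weierstrass equation with coefficients integral at `p` whose
discriminant is a unit at `p`. -/
def GoodReduction (p : ℕ) (W : WeierstrassCurve ℚ) : Prop :=
  ∃ C : WeierstrassCurve.VariableChange ℚ, IntegralAt p (C • W) ∧ padicNorm p (C • W).Δ = 1

/-- Multiplicative reduction at `p`: there is a Weierstrass equation with coefficients integral at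
`p` such that `p` divides the discriminant and `c₄` is a unit at `p`. -/
def MultiplicativeReduction (p : ℕ) (W : WeierstrassCurve ℚ) : Prop :=
  ∃ C : WeierstrassCurve.VariableChange ℚ, IntegralAt p (C • W) ∧ padicNorm p (C • W).Δ < 1 ∧
    padicNorm p (C • W).c₄ = 1

/-- The coefficients of the equation are integral at `p`, the point `(0, 0)` is singular modulo `p`,
`p` divides `b₂` and `p ^ 2` does not divide `a₆`: by Tate's algorithm the equation is minimal at `p`, the
Kodaira type is II, and the exponent of `p` in the conductor is the exponent of `p` in the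
discriminant. -/
structure TypeTwo (p : ℕ) (W : WeierstrassCurve ℚ) : Prop where
  int : IntegralAt p W
  a₃ : padicNorm p W.a₃ < 1
  a₄ : padicNorm p W.a₄ < 1
  b₂ : padicNorm p W.b₂ < 1
  a₆ : padicNorm p W.a₆ = (p : ℚ)⁻¹

section defs

variable (F : Type) [Field F] [NumberField F]

/-- The prime number `p` is unramified in `F`. -/
def Unramified (p : ℕ) : Prop :=
  ∀ v : HeightOneSpectrum (𝓞 F), (p : 𝓞 F) ∈ v.asIdeal → (p : 𝓞 F) ∉ v.asIdeal ^ 2

/-- The determinant of the representation `R` is the quadratic character (the trivial character, if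
`d = 1`) of the field `ℚ(√d)`, where `d` is squarefree. There is exactly one such `d` for every `R`. -/
def IsDetField {g : ℕ} (R : (F ≃ₐ[ℚ] F) →* Matrix.GeneralLinearGroup (Fin g) ℤ) (d : ℤ) : Prop :=
  Squarefree d ∧ ∃ s : F, s ^ 2 = (d : F) ∧
    ∀ σ : F ≃ₐ[ℚ] F, σ s = (((Matrix.GeneralLinearGroup.det (R σ) : ℤˣ) : ℤ) : F) * s

/-- The properties of the local root numbers `wE p = w(E / ℚ_p)` and `wA p = w(A / ℚ_p)` which we
use, for `A = E ⊗ M` with a representation `M = ℤ ^ g` of `Gal(F / ℚ)` whose determinant is the quadratic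
character of `ℚ(√d)`, for squarefree `d`. They are known: `w(E / ℚ_p)` is a sign, and `1` for good
reduction; if `E` has good reduction at `p` then `w(A / ℚ_p)` is the value at `-1` of the determinant; if
`p` is unramified in `F` then `w(A / ℚ_p)` is `w(E / ℚ_p) ^ g` times the value of the determinant at
the Frobenius element to the power `f`, where `p ^ f` is the `p`-part of the conductor of `E`. We use the
last formula for odd `p` if the reduction is multiplicative (`f = 1`) or the determinant is trivial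
at the Frobenius element, and for `p = 2` if the Kodaira type is II and `f` is even. -/
structure LocalRootNumbers (E : WeierstrassCurve ℚ) (g : ℕ) (d : ℤ) (wE wA : Nat.Primes → ℤ) :
    Prop where
  signE : ∀ p, wE p = 1 ∨ wE p = -1
  goodE : ∀ p : Nat.Primes, GoodReduction p E → wE p = 1
  good : ∀ p : Nat.Primes, (p : ℕ) ≠ 2 → GoodReduction p E →
    wA p = if ((p : ℕ) : ℤ) ∣ d then jacobiSym (-1) p else 1
  mult : ∀ p : Nat.Primes, (p : ℕ) ≠ 2 → Unramified F p → MultiplicativeReduction p E →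
    wA p = jacobiSym d p * wE p ^ g
  split : ∀ p : Nat.Primes, (p : ℕ) ≠ 2 → Unramified F p → jacobiSym d p = 1 → wA p = wE p ^ g
  two : ∀ p : Nat.Primes, (p : ℕ) = 2 → Unramified F p →
    (∃ C : WeierstrassCurve.VariableChange ℚ, TypeTwo p (C • E) ∧
      Even (padicValRat p (C • E).Δ)) → wA p = wE p ^ g

/-- The global root number of an abelian variety over `ℚ` of dimension `g` with the local root numbers
`w p`: the product of the local root numbers; at the infinite place it is `(-1) ^ g`. -/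
noncomputable def rootNumber (g : ℕ) (w : Nat.Primes → ℤ) : ℤ := (-1) ^ g * ∏ᶠ p, w p

/-! ### The points of `E ⊗ M` -/

/-- The group `E(F)`. -/
def Pts (p : ℤ × ℤ) : Type := ((curve p).baseChange F).toAffine.Point

noncomputable instance instPts (p : ℤ × ℤ) : AddCommGroup (Pts F p) :=
  (inferInstance : AddCommGroup ((curve p).baseChange F).toAffine.Point)

/-- The action of the Galois group on `E(F)`. -/
noncomputable def act (p : ℤ × ℤ) (σ : F ≃ₐ[ℚ] F) : Pts F p →+ Pts F p :=
  WeierstrassCurve.Affine.Point.map (W' := (curve p).toAffine) (σ : F →ₐ[ℚ] F)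

/-- The action of the Galois group on `A(F) = E(F) ⊗ M = E(F) ^ g` for `A = E ⊗ M`. -/
noncomputable def actA (p : ℤ × ℤ) {g : ℕ}
    (R : (F ≃ₐ[ℚ] F) →* Matrix.GeneralLinearGroup (Fin g) ℤ) (σ : F ≃ₐ[ℚ] F)
    (P : Fin g → Pts F p) : Fin g → Pts F p :=
  fun i => ∑ j, ((R σ : Matrix.GeneralLinearGroup (Fin g) ℤ) : Matrix (Fin g) (Fin g) ℤ) i j •
    act F p σ (P j)

/-- The group `A(L)` for `A = E ⊗ M` and a field `L` between `ℚ` and `F`: the elements of `A(F)` fixed by
`Gal(F / L)`. -/
noncomputable def ptsA (p : ℤ × ℤ) {g : ℕ}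
    (R : (F ≃ₐ[ℚ] F) →* Matrix.GeneralLinearGroup (Fin g) ℤ) (L : IntermediateField ℚ F) :
    AddSubgroup (Fin g → Pts F p) where
  carrier := {P | ∀ σ ∈ L.fixingSubgroup, actA F p R σ P = P}
  zero_mem' := fun σ _ => by
    funext i
    simp [actA]
  add_mem' := fun {P Q} hP hQ σ hσ => by
    funext i
    have h1 := congrFun (hP σ hσ) i
    have h2 := congrFun (hQ σ hσ) i
    simp only [actA, Pi.add_apply, map_add, smul_add, Finset.sum_add_distrib] at h1 h2 ⊢
    rw [h1, h2]
  neg_mem' := fun {P} hP σ hσ => by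
    funext i
    have h1 := congrFun (hP σ hσ) i
    simp only [actA, Pi.neg_apply, map_neg, smul_neg, Finset.sum_neg_distrib] at h1 ⊢
    rw [h1]

/-- The rank of `A(L)`. -/
noncomputable def rank (p : ℤ × ℤ) {g : ℕ}
    (R : (F ≃ₐ[ℚ] F) →* Matrix.GeneralLinearGroup (Fin g) ℤ) (L : IntermediateField ℚ F) : ℕ :=
  Module.finrank ℤ (ptsA F p R L)

/-- The statement for the abelian variety `A = E ⊗ M` over `ℚ`: the group `A(L)` is zero for all
fields `L` between `ℚ` and `F`; there are systems of local root numbers; in every such system only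
finitely many are not `1`, the global root number is `w(A / ℚ) = w(E / ℚ) ^ g`, and the parity conjecture
`(-1) ^ rk A(ℚ) = w(A / ℚ)` holds if `g` is even, or if `w(E / ℚ) = 1`. -/
structure ParityHolds (p : ℤ × ℤ) (g : ℕ)
    (R : (F ≃ₐ[ℚ] F) →* Matrix.GeneralLinearGroup (Fin g) ℤ) (d : ℤ) : Prop where
  zero : ∀ L : IntermediateField ℚ F, Subsingleton (ptsA F p R L)
  exist : ∃ wE wA, LocalRootNumbers F (curve p) g d wE wA
  finite : ∀ wE wA, LocalRootNumbers F (curve p) g d wE wA →
    {q | wE q ≠ 1}.Finite ∧ {q | wA q ≠ 1}.Finite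
  root : ∀ wE wA, LocalRootNumbers F (curve p) g d wE wA →
    rootNumber g wA = rootNumber 1 wE ^ g
  parity : ∀ wE wA, LocalRootNumbers F (curve p) g d wE wA → (Even g ∨ rootNumber 1 wE = 1) →
    (-1) ^ rank F p R ⊥ = rootNumber g wA

end defs

section tr

theorem int_iff (p : ℕ) (W : WeierstrassCurve ℚ) :
    IntegralAt p W ↔ Pool.Agent.Zk24.PV.IntegralAt p W :=
  ⟨fun h => ⟨h.1, h.2, h.3, h.4, h.5⟩, fun h => ⟨h.1, h.2, h.3, h.4, h.5⟩⟩

theorem good_iff (p : ℕ) (W : WeierstrassCurve ℚ) :
    GoodReduction p W ↔ Pool.Agent.Zk24.PV.GoodReduction p W := by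
  unfold GoodReduction Pool.Agent.Zk24.PV.GoodReduction
  simp only [int_iff]

theorem mult_iff (p : ℕ) (W : WeierstrassCurve ℚ) :
    MultiplicativeReduction p W ↔ Pool.Agent.Zk24.PV.MultiplicativeReduction p W := by
  unfold MultiplicativeReduction Pool.Agent.Zk24.PV.MultiplicativeReduction
  simp only [int_iff]

theorem two_iff (p : ℕ) (W : WeierstrassCurve ℚ) :
    TypeTwo p W ↔ Pool.Agent.Zk24.PV.TypeTwo p W :=
  ⟨fun h => ⟨(int_iff p W).1 h.1, h.2, h.3, h.4, h.5⟩,
    fun h => ⟨(int_iff p W).2 h.1, h.2, h.3, h.4, h.5⟩⟩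

variable {F : Type} [Field F] [NumberField F]

theorem local_iff (E : WeierstrassCurve ℚ) (g : ℕ) (d : ℤ) (wE wA : Nat.Primes → ℤ) :
    LocalRootNumbers F E g d wE wA ↔ Pool.Agent.Zk24.PV.LocalRootNumbers F E g d wE wA := by
  constructor
  · rintro ⟨h1, h2, h3, h4, h5, h6⟩
    refine ⟨h1, fun p h => h2 p ((good_iff p _).2 h), fun p a h => h3 p a ((good_iff p _).2 h),
      fun p a b h => h4 p a b ((mult_iff p _).2 h), h5, fun p a b h => h6 p a b ?_⟩
    obtain ⟨C, hC, hC'⟩ := h
    exact ⟨C, (two_iff p _).2 hC, hC'⟩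
  · rintro ⟨h1, h2, h3, h4, h5, h6⟩
    refine ⟨h1, fun p h => h2 p ((good_iff p _).1 h), fun p a h => h3 p a ((good_iff p _).1 h),
      fun p a b h => h4 p a b ((mult_iff p _).1 h), h5, fun p a b h => h6 p a b ?_⟩
    obtain ⟨C, hC, hC'⟩ := h
    exact ⟨C, (two_iff p _).1 hC, hC'⟩

theorem rootNumber_sign {wE : Nat.Primes → ℤ} (hf : {q | wE q ≠ 1}.Finite)
    (hs : ∀ p, wE p = 1 ∨ wE p = -1) : rootNumber 1 wE = 1 ∨ rootNumber 1 wE = -1 := by
  unfold rootNumber
  have h1 : ∏ᶠ p, wE p = 1 ∨ ∏ᶠ p, wE p = -1 := by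
    refine finprod_induction (p := fun z : ℤ => z = 1 ∨ z = -1) (Or.inl rfl) ?_ hs
    rintro x y (rfl | rfl) (rfl | rfl) <;> norm_num
  rcases h1 with h | h <;> rw [h] <;> norm_num

end tr

theorem crv_iff (X : ℕ) (p : ℤ × ℤ) : Pool.Agent.N922.PQ.Crv X p.1 p.2 ↔ p ∈ Curves X := by
  constructor
  · rintro ⟨h1, h2, h3, h4⟩
    exact ⟨⟨h1, h2⟩, max_le h3 h4⟩
  · rintro ⟨⟨h1, h2⟩, h3⟩
    exact ⟨h1, h2, (le_max_left _ _).trans h3, (le_max_right _ _).trans h3⟩

theorem nonempty {X : ℕ} (hX : 27 ≤ X) : ((1, 1) : ℤ × ℤ) ∈ Curves X := by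
  refine ⟨⟨by norm_num, ?_⟩, ?_⟩
  · rintro p hp ⟨h, -⟩
    have h1 : ((p : ℤ)) ∣ 1 := (dvd_pow_self (p : ℤ) (by norm_num)).trans h
    have h2 : p ∣ 1 := by exact_mod_cast h1
    exact hp.one_lt.ne' (Nat.dvd_one.1 h2)
  · have : height ((1, 1) : ℤ × ℤ) = 27 := by
      simp [height]
    rw [this]
    exact_mod_cast hX

/-- Let `F / ℚ` be a Galois extension of degree `2 ^ n`, `n ≥ 1`, in which `2` is unramified (that is,
no prime ideal `𝔭` of `F` has `2 ∈ 𝔭 ^ 2`). There is `c > 0` such that for all large `X` at least `c` times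
the number of all elliptic curves `E` over `ℚ` of height at most `X` have the following property: for
every `g` and every representation `R` of `Gal(F / ℚ)` on `M = ℤ ^ g`, the abelian variety `A = E ⊗ M` of
dimension `g` over `ℚ` has `A(L) = 0` for all `L ⊆ F`, its global root number is `w(E / ℚ) ^ g`, and the
parity conjecture `(-1) ^ rk A(ℚ) = w(A / ℚ)` holds if `g` is even, or if `w(E / ℚ) = 1`. -/
theorem result (F : Type) [Field F] [NumberField F] [IsGalois ℚ F] (n : ℕ) (h1 : 1 ≤ n)
    (hn : Module.finrank ℚ F = 2 ^ n)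
    (h2 : ∀ 𝔭 : Ideal (𝓞 F), 𝔭.IsPrime → (2 : 𝓞 F) ∉ 𝔭 ^ 2) :
    (∀ X : ℕ, (Curves X).Finite) ∧
    (∀ (g : ℕ) (R : (F ≃ₐ[ℚ] F) →* Matrix.GeneralLinearGroup (Fin g) ℤ),
      ∃! d : ℤ, IsDetField F R d) ∧
    ∃ c : ℝ, 0 < c ∧ ∀ᶠ X : ℕ in atTop,
      0 < (Curves X).ncard ∧
      c * ((Curves X).ncard : ℝ) ≤ (({p ∈ Curves X |
        ∀ (g : ℕ) (R : (F ≃ₐ[ℚ] F) →* Matrix.GeneralLinearGroup (Fin g) ℤ) (d : ℤ),
          IsDetField F R d → ParityHolds F p g R d}).ncard : ℝ) := by
  have hset : ∀ X : ℕ, Curves X = {p : ℤ × ℤ | Pool.Agent.N922.PQ.Crv X p.1 p.2} := by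
    intro X
    ext p
    exact (crv_iff X p).symm
  have hfin : ∀ X : ℕ, (Curves X).Finite := fun X => by
    rw [hset]
    exact Pool.Agent.N922.PQ.crv_fin X
  refine ⟨hfin, fun g R => ?_, ?_⟩
  · obtain ⟨d, hd⟩ := Pool.Agent.Zk24.PV.exists_det R
    exact ⟨d, hd, fun d' hd' => Pool.Agent.Zk24.PV.det_unique hd' hd⟩
  have hu : Unramified F 2 := by
    intro v _ h
    refine h2 v.asIdeal v.isPrime ?_
    exact_mod_cast h
  have hur : ∀ w : HeightOneSpectrum (𝓞 F), Pool.Agent.N922.PQ.Ov 2 w →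
      w.valuation F 2 = WithZero.exp (-1 : ℤ) := Pool.Agent.N922.PQ.val_two_of h2
  obtain ⟨δ, -, hδv, c, hc, X₀, h⟩ := Pool.Agent.Zk24.PV.finalX F hn h1 hur
  refine ⟨c, hc, ?_⟩
  filter_upwards [eventually_ge_atTop (max X₀ 27)] with X hX
  refine ⟨(Set.ncard_pos (hfin X)).2 ⟨_, nonempty ((le_max_right _ _).trans hX)⟩, ?_⟩
  have h4 := (h X ((le_max_left _ _).trans hX)).2
  rw [← hset] at h4
  refine h4.trans ?_
  have h5 : {p : ℤ × ℤ | Pool.Agent.N922.PQ.Crv X p.1 p.2 ∧
      (Pool.Agent.N922.PQ.GoodV (M := F) (𝓞 F) p ∧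
        ∃ a b D, Pool.Agent.Zk24.PV.Twist F δ p a b D)} ⊆ {p ∈ Curves X |
        ∀ (g : ℕ) (R : (F ≃ₐ[ℚ] F) →* Matrix.GeneralLinearGroup (Fin g) ℤ) (d : ℤ),
          IsDetField F R d → ParityHolds F p g R d} := by
    rintro p ⟨hp, ⟨-, hd, -⟩, a, b, D, hT⟩
    refine ⟨(crv_iff X p).1 hp, ?_⟩
    intro g R d hdR
    have e : (Pool.Agent.N874.PP.sW (p.1 : F) (p.2 : F)).baseChange F =
        (curve p).baseChange F := by
      apply WeierstrassCurve.ext <;>
        simp [Pool.Agent.N874.PP.sW, curve, WeierstrassCurve.baseChange]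
    have key : ∀ W : WeierstrassCurve F,
        (Pool.Agent.N874.PP.sW (p.1 : F) (p.2 : F)).baseChange F = W →
        Subsingleton W.toAffine.Point := by
      rintro W rfl
      exact hd
    have k1 : Subsingleton (Pts F p) := key _ e
    have k1' : ∀ L : IntermediateField ℚ F, Subsingleton (ptsA F p R L) := fun L =>
      inferInstance
    have k2 : rank F p R ⊥ = 0 := by
      haveI := k1' ⊥
      exact Module.finrank_zero_of_subsingleton
    obtain ⟨hd1, s, hs, -⟩ := hdR
    have k3 : ∀ wE wA, LocalRootNumbers F (curve p) g d wE wA →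
        {q | wE q ≠ 1}.Finite ∧ {q | wA q ≠ 1}.Finite ∧
          rootNumber g wA = rootNumber 1 wE ^ g := fun wE wA h6 =>
      Pool.Agent.Zk24.PV.root_main F hδv hT hu hd1 hs ((local_iff _ _ _ _ _).1 h6)
    obtain ⟨wE, wA, hw⟩ := Pool.Agent.Zk24.PV.exists_local F (curve p) g (d := d)
    refine ⟨k1', ⟨wE, wA, (local_iff _ _ _ _ _).2 hw⟩, fun wE wA h6 => ⟨(k3 wE wA h6).1,
      (k3 wE wA h6).2.1⟩, fun wE wA h6 => (k3 wE wA h6).2.2, fun wE wA h6 h7 => ?_⟩
    rw [k2, pow_zero, (k3 wE wA h6).2.2]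
    rcases h7 with h7 | h7
    · obtain ⟨k, rfl⟩ := h7
      rw [← two_mul, pow_mul]
      rcases rootNumber_sign (k3 wE wA h6).1 h6.signE with h8 | h8 <;> rw [h8] <;> norm_num
    · rw [h7, one_pow]
  exact Nat.cast_le.2 (Set.ncard_le_ncard h5 ((hfin X).subset fun p hp => hp.1))

end Pool.Agent.Results.MP_ac3185_nt.FormsOfPowers
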